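import Pool.Agent.Work.MP_db9399_da_helper94.OWNN

/-!
# MP_db9399, OWNX: blocks of a piece of type N (helper62)
-/

set_option autoImplicit false

namespace Pool.Agent.Work.MP_db9399_ownx

open Finset Classical
open Pool.Agent.Work.MP_db9399_all (nb mis)
open Pool.Agent.Work.MP_db9399_da.helper94.OWNN (mis_ge cut_blocks)

universe u

/-- local sparsity -/
theorem sparse {Y : Type u} [Fintype Y] {g ρ ζ : ℝ} {H : SimpleGraph Y} {d : ℕ}
    (hg : 0 < g) (hg1 : g ≤ 1 / 10) (hρ : 0 < ρ) (hρ1 : ρ ≤ 1)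
    (hζ : ζ ≤ ρ * g / 16) (hd : 16 / (ρ * g) ≤ d) (hdeg : ∀ v, (nb H v).card ≤ d)
    (hdeg2 : ∀ v, (1 - ζ) * d ≤ ((nb H v).card : ℝ))
    (hY : (1 + g / 2) * d ≤ (Fintype.card Y : ℝ))
    (hcut : ∀ T : Finset Y, ρ * T.card * (univ \ T).card ≤ ∑ v ∈ T, ((nb H v \ T).card : ℝ))
    (v : Y) : ρ * g / 8 * (d : ℝ) ^ 2 ≤ ((mis H (nb H v)).card : ℝ) := by
  have hρg : 0 < ρ * g := by positivity
  have hρg1 : ρ * g ≤ 1 / 10 := by nlinarith
  have hd0 : (0 : ℝ) ≤ d := Nat.cast_nonneg _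
  have hdpos : 16 ≤ ρ * g * d := by
    rw [div_le_iff₀ hρg] at hd
    linarith
  set W := nb H v with hW
  have hWle : (W.card : ℝ) ≤ d := by exact_mod_cast hdeg v
  have hWge : (1 - ζ) * d ≤ (W.card : ℝ) := hdeg2 v
  have hcomp : g / 2 * d ≤ ((univ \ W).card : ℝ) := by
    have h2 : ((univ \ W).card : ℝ) = (Fintype.card Y : ℝ) - W.card := by
      have h3 := card_sdiff_add_card_inter (univ : Finset Y) W
      rw [univ_inter, card_univ] at h3
      have : ((univ \ W).card : ℝ) + W.card = (Fintype.card Y : ℝ) := by exact_mod_cast h3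
      linarith
    rw [h2]
    linarith
  have hcut' := hcut W
  have hsum : ∑ w ∈ W, ((nb H w ∩ W).card : ℝ) ≤ d * W.card -
      ∑ w ∈ W, ((nb H w \ W).card : ℝ) := by
    have h1 : ∑ w ∈ W, (((nb H w ∩ W).card : ℝ) + ((nb H w \ W).card : ℝ)) ≤
        ∑ w ∈ W, (d : ℝ) := by
      apply sum_le_sum
      intro w _
      have h2 := card_sdiff_add_card_inter (nb H w) W
      have h3 := hdeg w
      have h4 : (nb H w ∩ W).card + (nb H w \ W).card ≤ d := by omega
      exact_mod_cast h4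
    rw [sum_add_distrib, sum_const, nsmul_eq_mul] at h1
    linarith
  have hmis := mis_ge H W
  have hW0 : (0 : ℝ) ≤ W.card := Nat.cast_nonneg _
  have hζ1 : ζ ≤ 1 / 2 := by linarith
  have hc1 : ρ * ((1 - ζ) * d) * (g / 2 * d) ≤ ρ * W.card * (univ \ W).card := by
    apply mul_le_mul
    · exact mul_le_mul_of_nonneg_left hWge hρ.le
    · exact hcomp
    · positivity
    · positivity
  have hc2 : ρ * g / 4 * (d : ℝ) ^ 2 ≤ ρ * ((1 - ζ) * d) * (g / 2 * d) := by
    have h1 : ρ * ((1 - ζ) * d) * (g / 2 * d) - ρ * g / 4 * (d : ℝ) ^ 2 =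
        ρ * g / 4 * (d : ℝ) ^ 2 * (1 - 2 * ζ) := by ring
    have h2 : 0 ≤ ρ * g / 4 * (d : ℝ) ^ 2 * (1 - 2 * ζ) :=
      mul_nonneg (by positivity) (by linarith)
    linarith
  have hc3 : (W.card : ℝ) * (d - W.card) ≤ ρ * g / 16 * (d : ℝ) ^ 2 := by
    have h1 : (d : ℝ) - W.card ≤ ρ * g / 16 * d := by nlinarith
    calc (W.card : ℝ) * (d - W.card) ≤ d * (ρ * g / 16 * d) := by
          apply mul_le_mul hWle h1 (by linarith) hd0
      _ = ρ * g / 16 * (d : ℝ) ^ 2 := by ring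
  have hc4 : (W.card : ℝ) ≤ ρ * g / 16 * (d : ℝ) ^ 2 := by
    nlinarith
  have hfin : (mis H W).card ≥
      (W.card : ℝ) ^ 2 - W.card - (d * W.card - ρ * g / 4 * (d : ℝ) ^ 2) := by
    linarith
  nlinarith

/-- A locally sparse graph is cut into less than `d` independent blocks of bounded size, the
vertices of `Sp` are blocks. -/
theorem blocks (C g ρ : ℝ) (hg : 0 < g) (hρ : 0 < ρ) :
    ∃ (ν : ℝ) (s1 d0 : ℕ), 0 < ν ∧ ν ≤ 1 ∧ 0 < s1 ∧
      ∀ {Y : Type u} [Fintype Y] (H : SimpleGraph Y) (d : ℕ) (Sp : Finset Y), d0 ≤ d →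
        (∀ v, (nb H v).card ≤ d) →
        (∀ v, ρ * g / 8 * (d : ℝ) ^ 2 ≤ ((mis H (nb H v)).card : ℝ)) →
        (Fintype.card Y : ℝ) ≤ C * d → (Sp.card : ℝ) ≤ ν * d →
        ∃ (K : ℕ) (bl : Y → ℕ), (K : ℝ) ≤ (1 - ν) * d ∧ (∀ v, bl v < K) ∧
          (∀ v w, bl v = bl w → ¬ H.Adj v w) ∧
          (∀ j, (univ.filter (fun v => bl v = j)).card ≤ s1) ∧
          ∀ v ∈ Sp, ∀ w, bl w = bl v → w = v := by
  obtain ⟨κ, Δ0, hκ, hκ1, hvcx⟩ :=
    Pool.Agent.Work.MP_db9399_exp.helper99.stmt_VCX.{u} (ρ * g / 8) (by positivity)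
  set s1 : ℕ := ⌈4 * C / κ⌉₊ + 1 with hs1
  have hs1pos : 0 < s1 := Nat.succ_pos _
  have hs1R : 4 * C / κ ≤ (s1 : ℝ) := by
    rw [hs1]
    push_cast
    linarith [Nat.le_ceil (4 * C / κ)]
  have hs1R0 : (0 : ℝ) < s1 := by exact_mod_cast hs1pos
  refine ⟨κ / 8, s1, ⌈Δ0 + 4 / κ⌉₊, by positivity, by linarith, hs1pos, ?_⟩
  intro Y _ H d Sp hd hdeg hmis hY hSp
  have hdR : Δ0 + 4 / κ ≤ d := by
    refine (Nat.le_ceil _).trans ?_
    exact_mod_cast hd
  have q2 : (0 : ℝ) ≤ (Δ0 : ℝ) := Nat.cast_nonneg _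
  have q3 : 0 < 4 / κ := by positivity
  have d2 : Δ0 ≤ d := by
    have : (Δ0 : ℝ) ≤ d := by linarith
    exact_mod_cast this
  have d3 : 4 ≤ κ * d := by
    have : 4 / κ ≤ d := by linarith
    rw [div_le_iff₀ hκ] at this
    linarith
  have hd0 : (0 : ℝ) ≤ d := Nat.cast_nonneg _
  let k : ℕ := ⌈(1 - κ) * d⌉₊
  have hk : (k : ℝ) ≤ (1 - κ) * d + 1 :=
    (Nat.ceil_lt_add_one (mul_nonneg (by linarith) hd0)).le
  obtain ⟨S, σ0, hS⟩ : ∃ (S : Type) (σ0 : S), ∀ s : S, s = σ0 := ⟨Unit, (), fun _ => rfl⟩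
  obtain ⟨c0, -, hc0, -⟩ := hvcx H ∅ d k (fun _ => ∅) S (fun _ => σ0) (fun _ => univ) d2
    (by
      intro v _
      exact (card_le_card (filter_subset _ _)).trans (hdeg v))
    (by
      intro v s
      refine (hmis v).trans (Nat.cast_le.2 (card_le_card ?_))
      intro p hp
      unfold mis at hp ⊢
      rw [mem_filter, mem_product] at hp ⊢
      exact ⟨⟨mem_filter.2 ⟨hp.1.1, notMem_empty _, (hS _).symm⟩,
        mem_filter.2 ⟨hp.1.2, notMem_empty _, (hS _).symm⟩⟩, hp.2⟩)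
    (by intro u hu; simp at hu)
    (by intro v; simp)
    (by
      intro _
      rw [card_univ, Fintype.card_fin]
      exact Nat.le_ceil _)
    (by
      intro s s' h
      exact absurd ((hS s).trans (hS s').symm) h)
  -- blocks
  let A : Fin k → Finset Y := fun i => univ.filter (fun v => c0 v = i)
  have hb : ∀ i, ∃ f : Y → Fin ((A i).card / s1 + 1),
      ∀ j, ((A i).filter (fun x => f x = j)).card ≤ s1 := fun i => cut_blocks (A i) s1 hs1pos
  choose f hf using hb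
  let b1 : Y → (Σ i : Fin k, Fin ((A i).card / s1 + 1)) := fun v => ⟨c0 v, f (c0 v) v⟩
  have hblc : ∀ j, (univ.filter (fun v => b1 v = j)).card ≤ s1 := by
    rintro ⟨i, j⟩
    refine (card_le_card ?_).trans (hf i j)
    intro v hv
    rw [mem_filter] at hv
    have h1 : b1 v = ⟨i, j⟩ := hv.2
    have h2 : c0 v = i := congrArg Sigma.fst h1
    subst h2
    rw [mem_filter]
    refine ⟨mem_filter.2 ⟨mem_univ _, rfl⟩, ?_⟩
    exact eq_of_heq (Sigma.mk.inj_iff.1 h1).2
  let ι : Type u := (Σ i : Fin k, Fin ((A i).card / s1 + 1)) ⊕ {v : Y // v ∈ Sp}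
  let b0 : Y → ι := fun v => if h : v ∈ Sp then Sum.inr ⟨v, h⟩ else Sum.inl (b1 v)
  have hι : (Fintype.card ι : ℝ) ≤ (1 - κ / 8) * d := by
    have h1 : Fintype.card ι = ∑ i : Fin k, ((A i).card / s1 + 1) + Sp.card := by
      rw [Fintype.card_sum, Fintype.card_sigma, Fintype.card_coe]
      simp
    have h2 : (Fintype.card ι : ℝ) = ∑ i : Fin k, ((((A i).card / s1 : ℕ) : ℝ) + 1) +
        Sp.card := by
      rw [h1]
      push_cast
      rfl
    have h3 : ∑ i : Fin k, ((((A i).card / s1 : ℕ) : ℝ) + 1) ≤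
        ∑ i : Fin k, (((A i).card : ℝ) / s1 + 1) :=
      sum_le_sum fun i _ => by
        have := Nat.cast_div_le (α := ℝ) (m := (A i).card) (n := s1)
        linarith
    have h4 : ∑ i : Fin k, (((A i).card : ℝ) / s1 + 1) =
        (∑ i : Fin k, ((A i).card : ℝ)) / s1 + k := by
      rw [sum_add_distrib, ← sum_div]
      simp
    have h5 : ∑ i : Fin k, (A i).card = Fintype.card Y := by
      rw [← card_univ (α := Y)]
      exact (card_eq_sum_card_fiberwise (f := c0) (s := univ) (t := univ)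
        (fun v _ => mem_univ _)).symm
    have h6 : (∑ i : Fin k, ((A i).card : ℝ)) = (Fintype.card Y : ℝ) := by exact_mod_cast h5
    have h8 : (Fintype.card Y : ℝ) / s1 ≤ κ / 4 * d := by
      rw [div_le_iff₀ hs1R0]
      refine hY.trans ?_
      have h9 : C ≤ κ / 4 * s1 := by
        rw [div_le_iff₀ hκ] at hs1R
        linarith
      nlinarith
    rw [h2]
    have h10 : ∑ i : Fin k, ((((A i).card / s1 : ℕ) : ℝ) + 1) ≤ κ / 4 * d + ((1 - κ) * d + 1) := by
      refine h3.trans ?_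
      rw [h4, h6]
      linarith
    linarith
  have hb0 : ∀ v w, b0 v = b0 w → (v ∈ Sp → w = v) ∧ (w ∈ Sp → w = v) ∧
      (v ∉ Sp → w ∉ Sp ∧ c0 v = c0 w) := by
    intro v w h
    by_cases hv : v ∈ Sp <;> by_cases hw : w ∈ Sp
    · simp only [b0, dif_pos hv, dif_pos hw] at h
      have := congrArg (fun x : {v : Y // v ∈ Sp} => x.1) (Sum.inr.inj h)
      exact ⟨fun _ => this.symm, fun _ => this.symm, fun h' => absurd hv h'⟩
    · simp only [b0, dif_pos hv, dif_neg hw] at h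
      exact absurd h (by simp)
    · simp only [b0, dif_neg hv, dif_pos hw] at h
      exact absurd h (by simp)
    · simp only [b0, dif_neg hv, dif_neg hw] at h
      have h1 := congrArg Sigma.fst (Sum.inl.inj h)
      exact ⟨fun h' => absurd h' hv, fun h' => absurd h' hw, fun _ => ⟨hw, h1⟩⟩
  let e := Fintype.equivFin ι
  have hinj : ∀ v w, (e (b0 v)).1 = (e (b0 w)).1 → b0 v = b0 w := fun v w h =>
    e.injective (Fin.ext h)
  refine ⟨Fintype.card ι, fun v => (e (b0 v)).1, hι, fun v => (e (b0 v)).2, ?_, ?_, ?_⟩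
  · intro v w h hvw
    have h1 := hb0 v w (hinj v w h)
    by_cases hv : v ∈ Sp
    · have := h1.1 hv
      subst this
      exact H.loopless.irrefl _ hvw
    · exact hc0 v w (by simp) (by simp) hvw (h1.2.2 hv).2
  · intro j
    rcases (univ.filter (fun v => (e (b0 v)).1 = j)).eq_empty_or_nonempty with h | ⟨v0, h0⟩
    · rw [h]
      simp
    · rw [mem_filter] at h0
      by_cases hv : v0 ∈ Sp
      · have h1 : univ.filter (fun v => (e (b0 v)).1 = j) ⊆ {v0} := by
          intro v hv'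
          rw [mem_filter] at hv'
          rw [mem_singleton]
          exact (hb0 v0 v (hinj v0 v (h0.2.trans hv'.2.symm))).1 hv
        exact (card_le_card h1).trans (by rw [card_singleton]; exact hs1pos)
      · refine (card_le_card ?_).trans (hblc (b1 v0))
        intro v hv'
        rw [mem_filter] at hv'
        have h1 := hinj v0 v (h0.2.trans hv'.2.symm)
        have h2 := (hb0 v0 v h1).2.2 hv
        simp only [b0, dif_neg hv, dif_neg h2.1] at h1
        exact mem_filter.2 ⟨mem_univ _, (Sum.inl.inj h1).symm⟩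
  · intro v hv w h
    exact (hb0 v w (hinj v w h.symm)).1 hv

end Pool.Agent.Work.MP_db9399_ownx
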