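import Pool.Agent.Work.MP_db9399_ownx_helper62.Geo
import Pool.Agent.Work.MP_db9399_ownx_helper62.Blk

/-!
# MP_db9399, OWNX: the blocks of all pieces of type N (helper62)
-/

set_option autoImplicit false

namespace Pool.Agent.Work.MP_db9399_ownx

open Finset Classical
open Pool.Agent.Work.MP_db9399_all (nb mis)
open Pool.Agent.Work.MP_db9399_da
open Pool.Agent.Work.MP_db9399_da.helper62 (mem_nb nb_split card_nb_bk dec_irrel)
open Pool.Agent.Work.MP_db9399_xf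

universe u

/-- the conclusion of `blocks` for one `d` -/
def BlkP (C g ρ ν : ℝ) (s1 d : ℕ) : Prop :=
  ∀ {Y : Type u} [Fintype Y] (H : SimpleGraph Y) (Sp : Finset Y),
    (∀ v, (nb H v).card ≤ d) →
    (∀ v, ρ * g / 8 * (d : ℝ) ^ 2 ≤ ((mis H (nb H v)).card : ℝ)) →
    (Fintype.card Y : ℝ) ≤ C * d → (Sp.card : ℝ) ≤ ν * d →
    ∃ (K : ℕ) (bl : Y → ℕ), (K : ℝ) ≤ (1 - ν) * d ∧ (∀ v, bl v < K) ∧
      (∀ v w, bl v = bl w → ¬ H.Adj v w) ∧
      (∀ j, (univ.filter (fun v => bl v = j)).card ≤ s1) ∧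
      ∀ v ∈ Sp, ∀ w, bl w = bl v → w = v

section
variable {V : Type u} [Fintype V] {N J : ℕ} {C g z θk θ' η a : ℝ} {M : ℕ} {S : Fin J → Scl}
  {G : SimpleGraph V} {d : ℕ} {X : XD V N J}

theorem blkX (hP : PcX C g z θk θ' η a M S G d X) (hd : 0 < d) (hC : 0 ≤ C) (hg : 0 < g)
    (hg1 : g ≤ 1 / 10) (ha : 0 ≤ a) (hρ : ∀ s, 0 < (S s).ρ ∧ (S s).ρ ≤ 1)
    (hθ : ∀ s, 0 < (S s).θ) (hζ : ∀ s, (S s).ζ ≤ (S s).ρ * g / 16)
    (hd1 : ∀ s, 16 / ((S s).ρ * g) ≤ d) (ν : Fin J → ℝ) (s1 : Fin J → ℕ)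
    (hν : ∀ s, 0 < ν s ∧ ν s ≤ 1) (hν2 : ∀ s, Real.sqrt (S s).θ + a ≤ ν s)
    (hB : ∀ s, BlkP.{u} C g (S s).ρ (ν s) (s1 s) d) :
    ∃ (K : Fin N → ℕ) (bl : V → Fin (d + 1)), (∀ n, (K n : ℝ) ≤ (1 - ν (X.sc n)) * d) ∧
      (∀ v, InT X Ty.N v → (bl v).1 < K (X.P.pc v)) ∧
      (∀ v w, InT X Ty.N v → InT X Ty.N w → X.P.pc v = X.P.pc w → bl v = bl w →
        ¬ G.Adj v w) ∧
      (∀ n j, ((pV X.P n).filter (fun v => InT X Ty.N v ∧ bl v = j)).card ≤ s1 (X.sc n)) ∧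
      ∀ v w, InT X Ty.N v → InT X Ty.N w → X.P.pc v = X.P.pc w → bl v = bl w →
        Sp S G d X v → w = v := by
  have hdR : (0 : ℝ) < d := by exact_mod_cast hd
  have h0 : ∀ n, ∃ (K : ℕ) (b : Ts X.P n → ℕ), (K : ℝ) ≤ (1 - ν (X.sc n)) * d ∧
      (X.P.ty n = Ty.N → (∀ v, b v < K) ∧ (∀ v w, b v = b w → ¬ (bk G X.P n).Adj v w) ∧
      (∀ j, (univ.filter (fun v => b v = j)).card ≤ s1 (X.sc n)) ∧
      ∀ v : Ts X.P n, Sp S G d X v.1 → ∀ w, b w = b v → w = v) := by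
    intro n
    by_cases hn : X.P.ty n = Ty.N
    · have hsp : ∀ v : Ts X.P n, (nb (bk G X.P n) v).card + (nb (thin G X.P) v.1).card = d := by
        intro v
        rw [card_nb_bk, nb_split, hP.reg]
      obtain ⟨K, b, h1, h2, h3, h4, h5⟩ := hB (X.sc n) (bk G X.P n)
        (univ.filter (fun v : Ts X.P n => Sp S G d X v.1))
        (fun v => by
          have := hsp v
          omega)
        (sparse hg hg1 (hρ _).1 (hρ _).2 (hζ (X.sc n)) (hd1 _)
          (fun v => by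
            have := hsp v
            omega)
          (fun v => by
            have h1 := hP.thd v.1 (Or.inl (inT_of hn v))
            rw [v.2.2] at h1
            have h2 : ((nb (bk G X.P n) v).card : ℝ) + ((nb (thin G X.P) v.1).card : ℝ) = d := by
              exact_mod_cast hsp v
            linarith)
          (hP.nL n hn)
          (fun T => dec_irrel (p := fun (_ : DecidableEq (Ts X.P n)) =>
            (S (X.sc n)).ρ * T.card * (univ \ T).card ≤
              ∑ v ∈ T, ((nb (bk G X.P n) v \ T).card : ℝ)) (hP.cut n (Or.inl hn) T)))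
        (card_TsX hP hC n)
        (by
          refine le_trans ?_ ((card_Sp hP hd n (hθ _) ha).trans
            (mul_le_mul_of_nonneg_right (hν2 (X.sc n)) hdR.le))
          refine Nat.cast_le.2 (card_le_card_of_injOn Subtype.val ?_
            (Subtype.val_injective.injOn))
          intro v hv
          rw [mem_coe, mem_filter] at hv ⊢
          exact ⟨mem_pV.2 v.2, hv.2⟩)
      exact ⟨K, b, h1, fun _ => ⟨h2, h3, h4, fun v hv => h5 v (mem_filter.2 ⟨mem_univ _, hv⟩)⟩⟩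
    · refine ⟨0, fun _ => 0, ?_, fun h => absurd h hn⟩
      rw [Nat.cast_zero]
      exact mul_nonneg (by linarith [(hν (X.sc n)).2]) hdR.le
  choose K b hK hb using h0
  have hKd : ∀ n, K n ≤ d := by
    intro n
    have h1 := hK n
    have h2 : (1 - ν (X.sc n)) * d ≤ 1 * d :=
      mul_le_mul_of_nonneg_right (by linarith [(hν (X.sc n)).1]) hdR.le
    have : (K n : ℝ) ≤ d := by linarith
    exact_mod_cast this
  have hbd : ∀ v (h : InT X Ty.N v), b (X.P.pc v) ⟨v, h.1, rfl⟩ < K (X.P.pc v) := fun v h =>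
    (hb (X.P.pc v) h.2).1 _
  let bl : V → Fin (d + 1) := fun v => if h : InT X Ty.N v then
    ⟨b (X.P.pc v) ⟨v, h.1, rfl⟩, by
      have h1 := hbd v h
      have h2 := hKd (X.P.pc v)
      omega⟩ else ⟨0, Nat.succ_pos d⟩
  have hbl : ∀ v (h : InT X Ty.N v) n (hn : X.P.pc v = n), (bl v).1 = b n ⟨v, h.1, hn⟩ := by
    rintro v h n rfl
    simp only [bl, dif_pos h]
  refine ⟨K, bl, hK, ?_, ?_, ?_, ?_⟩
  · intro v h
    rw [hbl v h _ rfl]
    exact hbd v h
  · intro v w hv hw hvw h hadj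
    have h1 := congrArg Fin.val h
    rw [hbl v hv _ hvw, hbl w hw _ rfl] at h1
    refine (hb (X.P.pc w) hw.2).2.1 _ _ h1 ⟨hadj, hv.1, hw.1, hvw, fun h2 => ?_⟩
    rw [hv.2] at h2
    exact absurd h2 (by decide)
  · intro n j
    by_cases hn : X.P.ty n = Ty.N
    · have h1 := (hb n hn).2.2.1 j.1
      refine le_trans ?_ h1
      rw [← card_map (Function.Embedding.subtype _)]
      apply card_le_card
      intro v hv
      rw [mem_filter] at hv
      have h2 := mem_pV.1 hv.1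
      rw [mem_map]
      refine ⟨⟨v, h2⟩, mem_filter.2 ⟨mem_univ _, ?_⟩, rfl⟩
      rw [← hbl v hv.2.1 n h2.2, hv.2.2]
    · have h1 : ((pV X.P n).filter (fun v => InT X Ty.N v ∧ bl v = j)) = ∅ := by
        rw [filter_eq_empty_iff]
        intro v hv h
        exact hn (by rw [← (mem_pV.1 hv).2]; exact h.1.2)
      rw [h1]
      simp
  · intro v w hv hw hvw h hsp
    have h1 := congrArg Fin.val h
    rw [hbl v hv _ rfl, hbl w hw _ hvw.symm] at h1
    have h2 := (hb (X.P.pc v) hv.2).2.2.2 ⟨v, hv.1, rfl⟩ hsp ⟨w, hw.1, hvw.symm⟩ h1.symm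
    exact congrArg Subtype.val h2

end

end Pool.Agent.Work.MP_db9399_ownx
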