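import Pool.Agent.Work.MP_db9399_xf_helper62.BX3

/-!
# MP_db9399, OWNX: counting neighbours in pieces (helper62)
-/

set_option autoImplicit false

namespace Pool.Agent.Work.MP_db9399_ownx

open Finset Classical
open Pool.Agent.Work.MP_db9399_all (nb)
open Pool.Agent.Work.MP_db9399_da
open Pool.Agent.Work.MP_db9399_da.helper62 (mem_nb nb_split card_nb_bk)
open Pool.Agent.Work.MP_db9399_xf

universe u

section gen
variable {V : Type u} [Fintype V]

theorem dbl (G : SimpleGraph V) (W A : Finset V) :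
    ∑ w ∈ W, (nb G w ∩ A).card = ∑ v ∈ A, (nb G v ∩ W).card := by
  have h1 : ∀ w, (nb G w ∩ A).card = ∑ v ∈ A, if G.Adj w v then 1 else 0 := by
    intro w
    rw [← card_filter]
    congr 1
    ext v
    rw [mem_inter, mem_nb, mem_filter]
    tauto
  have h2 : ∀ v, (nb G v ∩ W).card = ∑ w ∈ W, if G.Adj w v then 1 else 0 := by
    intro v
    rw [← card_filter]
    congr 1
    ext w
    rw [mem_inter, mem_nb, mem_filter, G.adj_comm]
    tauto
  rw [sum_congr rfl fun w _ => h1 w, sum_congr rfl fun v _ => h2 v, sum_comm]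

theorem mkv {ι : Type u} (W : Finset ι) (f : ι → ℝ) {x s : ℝ} (hx : 0 < x)
    (hs : ∑ w ∈ W, f w ≤ s) (h : ∀ w ∈ W, x ≤ f w) : (W.card : ℝ) ≤ s / x := by
  rw [le_div_iff₀ hx, ← nsmul_eq_mul]
  exact (card_nsmul_le_sum W f x h).trans hs

end gen

section defs
variable {V : Type u} [Fintype V] {N J : ℕ}

/-- number of neighbours in the piece `m` -/
noncomputable def av (G : SimpleGraph V) (X : XD V N J) (w : V) (m : Fin N) : ℕ :=
  (nb G w ∩ pV X.P m).card

/-- special vertices of the pieces of type N -/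
def Sp (S : Fin J → Scl) (G : SimpleGraph V) (d : ℕ) (X : XD V N J) (w : V) : Prop :=
  InT X Ty.N w ∧ (Real.sqrt (S (X.sc (X.P.pc w))).θ * d ≤ ((nb (thin G X.P) w).card : ℝ) ∨
    w ∈ X.Hv)

/-- outside the cluster of `m` -/
def Oc (X : XD V N J) (w : V) (m : Fin N) : Prop := ∀ v ∈ pV X.P m, X.cq w ≠ X.cq v

/-- many neighbours in the piece `m` of another cluster -/
def Ot (y : ℝ) (G : SimpleGraph V) (X : XD V N J) (w : V) (m : Fin N) : Prop :=
  Oc X w m ∧ y ≤ (av G X w m : ℝ)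

/-- big at the piece `m` of type B -/
def Bg (S : Fin J → Scl) (G : SimpleGraph V) (d : ℕ) (X : XD V N J) (w : V) (m : Fin N) : Prop :=
  X.P.ty m = Ty.B ∧ (S (X.sc m)).ζ / 1000 * d ≤ (av G X w m : ℝ)

/-- conflicts of special vertices -/
def Cf (y : ℝ) (S : Fin J → Scl) (G : SimpleGraph V) (d : ℕ) (X : XD V N J) (v w : V) : Prop :=
  Sp S G d X v ∧ Sp S G d X w ∧ v ≠ w ∧ (X.cq v = X.cq w ∨ (∃ m, Bg S G d X v m ∧ Bg S G d X w m) ∨
    ∃ m, Ot y G X v m ∧ Ot y G X w m)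

/-- conflicts -/
def CC (y : ℝ) (S : Fin J → Scl) (G : SimpleGraph V) (d : ℕ) (X : XD V N J) (v w : V) : Prop :=
  InT X Ty.N v ∧ InT X Ty.N w ∧ ((thin G X.P).Adj v w ∨ Cf y S G d X v w)

theorem CC.symm {y : ℝ} {S : Fin J → Scl} {G : SimpleGraph V} {d : ℕ} {X : XD V N J} {v w : V}
    (h : CC y S G d X v w) : CC y S G d X w v := by
  refine ⟨h.2.1, h.1, h.2.2.imp (fun h' => h'.symm) ?_⟩
  rintro ⟨h1, h2, h3, h4⟩
  refine ⟨h2, h1, h3.symm, h4.imp (fun e => e.symm) (Or.imp ?_ ?_)⟩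
  · rintro ⟨m, h5, h6⟩
    exact ⟨m, h6, h5⟩
  · rintro ⟨m, h5, h6⟩
    exact ⟨m, h6, h5⟩

end defs

section geo
variable {V : Type u} [Fintype V] {N J : ℕ} {C g z θk θ' η a : ℝ} {M : ℕ} {S : Fin J → Scl}
  {G : SimpleGraph V} {d : ℕ} {X : XD V N J}

theorem mem_pV {w : V} {n : Fin N} : w ∈ pV X.P n ↔ w ∉ X.P.V0 ∧ X.P.pc w = n := by
  unfold pV
  rw [mem_filter]
  exact ⟨fun h => h.2, fun h => ⟨mem_univ _, h⟩⟩

/-- adjacent vertices, not in the same piece -/
theorem thin_of {v w : V} {n : Fin N} (hv : v ∈ pV X.P n) (hw : w ∉ pV X.P n) (h : G.Adj v w) :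
    (thin G X.P).Adj v w := by
  refine ⟨h, fun h' => hw (mem_pV.2 ⟨h'.2.2.1, ?_⟩)⟩
  rw [← h'.2.2.2.1]
  exact (mem_pV.1 hv).2

theorem sum_av_le {w : V} (Ms : Finset (Fin N)) (h : ∀ m ∈ Ms, w ∉ pV X.P m) :
    ∑ m ∈ Ms, av G X w m ≤ (nb (thin G X.P) w).card := by
  unfold av
  rw [← card_biUnion]
  · apply card_le_card
    intro v hv
    obtain ⟨m, hm, hv⟩ := mem_biUnion.1 hv
    rw [mem_inter, mem_nb] at hv
    rw [mem_nb]
    exact (thin_of hv.2 (h m hm) hv.1.symm).symm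
  · intro m _ m' _ hne
    rw [Function.onFun, disjoint_left]
    intro v hv hv'
    have h1 := (mem_pV.1 (mem_inter.1 hv).2).2
    have h2 := (mem_pV.1 (mem_inter.1 hv').2).2
    exact hne (h1.symm.trans h2)

theorem av_le {w : V} {m : Fin N} (h : w ∉ pV X.P m) :
    av G X w m ≤ (nb (thin G X.P) w).card := by
  have := sum_av_le (G := G) {m} (fun m' hm' => by rwa [mem_singleton.1 hm'])
  rwa [sum_singleton] at this

/-- vertices outside the piece `m` -/
theorem sum_av_thin (W : Finset V) (m : Fin N) (h : ∀ w ∈ W, w ∉ pV X.P m) :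
    ((∑ w ∈ W, av G X w m : ℕ) : ℝ) ≤ ∑ v ∈ pV X.P m, ((nb (thin G X.P) v).card : ℝ) := by
  unfold av
  rw [dbl]
  push_cast
  refine sum_le_sum fun v hv => Nat.cast_le.2 (card_le_card ?_)
  intro w hw
  rw [mem_inter, mem_nb] at hw
  rw [mem_nb]
  exact thin_of hv (h w hw.2) hw.1

/-- vertices outside the cluster of `m` -/
theorem sum_av_out (hP : PcX C g z θk θ' η a M S G d X) (W : Finset V) (m : Fin N)
    (h : ∀ w ∈ W, Oc X w m) : ((∑ w ∈ W, av G X w m : ℕ) : ℝ) ≤ a * (d : ℝ) ^ 2 := by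
  refine le_trans ?_ (hP.xs m)
  unfold av
  rw [dbl]
  refine Nat.cast_le.2 (sum_le_sum fun v hv => card_le_card ?_)
  intro w hw
  rw [mem_inter] at hw
  exact mem_filter.2 ⟨hw.1, h w hw.2 v hv⟩

theorem not_pV_of_N {w : V} {m : Fin N} (hw : InT X Ty.N w) (hm : X.P.ty m ≠ Ty.N) :
    w ∉ pV X.P m := fun h => hm (by rw [← (mem_pV.1 h).2]; exact hw.2)

theorem not_pV_owd {w : V} {m : Fin N} (hw : Owd X w) (hm : X.P.ty m ≠ Ty.N) :
    w ∉ pV X.P m := by
  rcases hw with hw | hw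
  · exact fun h => (mem_pV.1 h).1 hw
  · exact not_pV_of_N hw hm

/-- number of special vertices of a piece -/
theorem card_Sp (hP : PcX C g z θk θ' η a M S G d X) (hd : 0 < d) (n : Fin N)
    (hθ : 0 < (S (X.sc n)).θ) (ha : 0 ≤ a) :
    (((pV X.P n).filter (fun w => Sp S G d X w)).card : ℝ) ≤
      (Real.sqrt (S (X.sc n)).θ + a) * d := by
  have hdR : (0 : ℝ) < d := by exact_mod_cast hd
  have hs : 0 < Real.sqrt (S (X.sc n)).θ := Real.sqrt_pos.2 hθ
  by_cases hn : X.P.ty n = Ty.N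
  · have h1 : ((pV X.P n).filter (fun w => Sp S G d X w)) ⊆
        (pV X.P n).filter (fun w => Real.sqrt (S (X.sc n)).θ * d ≤
          ((nb (thin G X.P) w).card : ℝ)) ∪ (pV X.P n ∩ X.Hv) := by
      intro w hw
      rw [mem_filter] at hw
      rcases hw.2.2 with h2 | h2
      · refine mem_union_left _ (mem_filter.2 ⟨hw.1, ?_⟩)
        rw [(mem_pV.1 hw.1).2] at h2
        exact h2
      · exact mem_union_right _ (mem_inter.2 ⟨hw.1, h2⟩)
    have h2 := (card_le_card h1).trans (card_union_le _ _)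
    have h3 : (((pV X.P n).filter (fun w => Sp S G d X w)).card : ℝ) ≤
        (((pV X.P n).filter (fun w => Real.sqrt (S (X.sc n)).θ * d ≤
          ((nb (thin G X.P) w).card : ℝ))).card : ℝ) + ((pV X.P n ∩ X.Hv).card : ℝ) := by
      exact_mod_cast h2
    have h4 := hP.hvc n (Or.inl hn)
    have h5 : (((pV X.P n).filter (fun w => Real.sqrt (S (X.sc n)).θ * d ≤
          ((nb (thin G X.P) w).card : ℝ))).card : ℝ) ≤
        (S (X.sc n)).θ * (d : ℝ) ^ 2 / (Real.sqrt (S (X.sc n)).θ * d) := by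
      refine mkv _ (fun w => ((nb (thin G X.P) w).card : ℝ)) (by positivity) ?_
        (fun w hw => (mem_filter.1 hw).2)
      refine le_trans ?_ (hP.ths n (Or.inl hn))
      exact sum_le_sum_of_subset_of_nonneg (filter_subset _ _) fun _ _ _ => Nat.cast_nonneg _
    have h6 : (S (X.sc n)).θ * (d : ℝ) ^ 2 / (Real.sqrt (S (X.sc n)).θ * d) =
        Real.sqrt (S (X.sc n)).θ * d := by
      rw [div_eq_iff (by positivity)]
      have := Real.mul_self_sqrt hθ.le
      calc (S (X.sc n)).θ * (d : ℝ) ^ 2 =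
          (Real.sqrt (S (X.sc n)).θ * Real.sqrt (S (X.sc n)).θ) * (d : ℝ) ^ 2 := by rw [this]
        _ = _ := by ring
    rw [h6] at h5
    linarith
  · have h1 : ((pV X.P n).filter (fun w => Sp S G d X w)) = ∅ := by
      rw [filter_eq_empty_iff]
      intro w hw h
      exact hn (by rw [← (mem_pV.1 hw).2]; exact h.1.2)
    rw [h1, card_empty, Nat.cast_zero]
    positivity

/-- sums over a cluster -/
theorem card_clu (hP : PcX C g z θk θ' η a M S G d X) {v : V} (hv : v ∉ X.P.V0)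
    (A : Finset V) (hA : ∀ w ∈ A, w ∉ X.P.V0 ∧ X.cq w = X.cq v) {x : ℝ} (hx : 0 ≤ x)
    (h : ∀ n : Fin N, (∃ w, w ∉ X.P.V0 ∧ X.P.pc w = n ∧ X.cq w = X.cq v) →
      ((A.filter (fun w => w ∈ pV X.P n)).card : ℝ) ≤ x) : (A.card : ℝ) ≤ M * x := by
  obtain ⟨k, hk⟩ := Option.ne_none_iff_exists'.1 (hP.cln v hv)
  set Ns : Finset (Fin N) := univ.filter (fun n => ∃ v, v ∉ X.P.V0 ∧ X.P.pc v = n ∧
    X.cq v = some k) with hNs
  have h1 : (A.card : ℝ) ≤ ∑ n ∈ Ns, ((A.filter (fun w => w ∈ pV X.P n)).card : ℝ) := by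
    have h2 : A ⊆ Ns.biUnion (fun n => A.filter (fun w => w ∈ pV X.P n)) := by
      intro w hw
      have h3 := hA w hw
      refine mem_biUnion.2 ⟨X.P.pc w, ?_, mem_filter.2 ⟨hw, mem_pV.2 ⟨h3.1, rfl⟩⟩⟩
      exact mem_filter.2 ⟨mem_univ _, w, h3.1, rfl, h3.2.trans hk⟩
    exact_mod_cast (card_le_card h2).trans card_biUnion_le
  have h2 : ∑ n ∈ Ns, ((A.filter (fun w => w ∈ pV X.P n)).card : ℝ) ≤ ∑ n ∈ Ns, x := by
    refine sum_le_sum fun n hn => h n ?_
    obtain ⟨w, h3, h4, h5⟩ := (mem_filter.1 hn).2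
    exact ⟨w, h3, h4, h5.trans hk.symm⟩
  have h3 : (Ns.card : ℝ) ≤ M := by exact_mod_cast hP.npc k
  rw [sum_const, nsmul_eq_mul] at h2
  exact h1.trans (h2.trans (mul_le_mul_of_nonneg_right h3 hx))

/-- number of special vertices of a cluster -/
theorem card_Spc (hP : PcX C g z θk θ' η a M S G d X) (hd : 0 < d) {v : V} (hv : v ∉ X.P.V0)
    (hθ : 0 < (S (X.sc (X.P.pc v))).θ) (ha : 0 ≤ a) :
    ((univ.filter (fun w => Sp S G d X w ∧ X.cq w = X.cq v)).card : ℝ) ≤
      M * ((Real.sqrt (S (X.sc (X.P.pc v))).θ + a) * d) := by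
  refine card_clu hP hv _ ?_ (by positivity) ?_
  · intro w hw
    have := (mem_filter.1 hw).2
    exact ⟨this.1.1.1, this.2⟩
  · rintro n ⟨w, h1, h2, h3⟩
    have h4 : X.sc n = X.sc (X.P.pc v) := by
      rw [← h2]
      exact hP.scq w v h1 hv h3
    rw [← h4] at hθ ⊢
    refine le_trans (Nat.cast_le.2 (card_le_card ?_)) (card_Sp hP hd n hθ ha)
    intro u hu
    rw [mem_filter, mem_filter] at hu
    exact mem_filter.2 ⟨hu.2, hu.1.2.1⟩

/-- number of vertices which are big at the piece `m` -/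
theorem card_Bg (hP : PcX C g z θk θ' η a M S G d X) (hd : 0 < d) (m : Fin N)
    (hm : X.P.ty m = Ty.B) (hζ : 0 < (S (X.sc m)).ζ) :
    ((univ.filter (fun w => Owd X w ∧ Bg S G d X w m)).card : ℝ) ≤
      1000 * (S (X.sc m)).θ / (S (X.sc m)).ζ * d := by
  have hdR : (0 : ℝ) < d := by exact_mod_cast hd
  have h1 : ((univ.filter (fun w => Owd X w ∧ Bg S G d X w m)).card : ℝ) ≤
      (S (X.sc m)).θ * (d : ℝ) ^ 2 / ((S (X.sc m)).ζ / 1000 * d) := by
    refine mkv _ (fun w => (av G X w m : ℝ)) (by positivity) ?_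
      (fun w hw => (mem_filter.1 hw).2.2.2)
    refine le_trans ?_ ((sum_av_thin (G := G) (univ.filter (fun w => Owd X w ∧ Bg S G d X w m)) m
      (fun w hw => not_pV_owd (mem_filter.1 hw).2.1 (by rw [hm]; decide))).trans
      (hP.ths m (Or.inr hm)))
    push_cast
    exact le_rfl
  refine h1.trans (le_of_eq ?_)
  field_simp

/-- number of vertices which are big at the same piece as `v` -/
theorem card_Bg2 (hP : PcX C g z θk θ' η a M S G d X) (hd : 0 < d) {v : V}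
    (hv : InT X Ty.N v) (hζ : ∀ s, 0 < (S s).ζ) (hθ : ∀ s, (S s).θ ≤ (S s).ζ ^ 2) :
    ((univ.filter (fun w => Owd X w ∧ ∃ m, Bg S G d X v m ∧ Bg S G d X w m)).card : ℝ) ≤
      10 ^ 6 * ((nb (thin G X.P) v).card : ℝ) := by
  have hdR : (0 : ℝ) < d := by exact_mod_cast hd
  set Ms : Finset (Fin N) := univ.filter (fun m => Bg S G d X v m) with hMs
  have h1 : ((univ.filter (fun w => Owd X w ∧ ∃ m, Bg S G d X v m ∧ Bg S G d X w m)).card : ℝ) ≤
      ∑ m ∈ Ms, ((univ.filter (fun w => Owd X w ∧ Bg S G d X w m)).card : ℝ) := by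
    have h2 : (univ.filter (fun w => Owd X w ∧ ∃ m, Bg S G d X v m ∧ Bg S G d X w m)) ⊆
        Ms.biUnion (fun m => univ.filter (fun w => Owd X w ∧ Bg S G d X w m)) := by
      intro w hw
      obtain ⟨h3, m, h4, h5⟩ := (mem_filter.1 hw).2
      exact mem_biUnion.2 ⟨m, mem_filter.2 ⟨mem_univ _, h4⟩, mem_filter.2 ⟨mem_univ _, h3, h5⟩⟩
    exact_mod_cast (card_le_card h2).trans card_biUnion_le
  have h2 : ∑ m ∈ Ms, ((univ.filter (fun w => Owd X w ∧ Bg S G d X w m)).card : ℝ) ≤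
      ∑ m ∈ Ms, 10 ^ 6 * (av G X v m : ℝ) := by
    refine sum_le_sum fun m hm => ?_
    have h3 := (mem_filter.1 hm).2
    have hζm := hζ (X.sc m)
    refine (card_Bg hP hd m h3.1 hζm).trans ?_
    have h4 : 1000 * (S (X.sc m)).θ / (S (X.sc m)).ζ * d ≤ 1000 * (S (X.sc m)).ζ * d := by
      refine mul_le_mul_of_nonneg_right ?_ hdR.le
      rw [div_le_iff₀ hζm]
      have := hθ (X.sc m)
      nlinarith
    have h5 := h3.2
    linarith
  rw [← mul_sum] at h2
  have h3 : ((∑ m ∈ Ms, av G X v m : ℕ) : ℝ) ≤ ((nb (thin G X.P) v).card : ℝ) := by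
    refine Nat.cast_le.2 (sum_av_le Ms fun m hm => not_pV_of_N hv ?_)
    rw [((mem_filter.1 hm).2).1]
    decide
  push_cast at h3
  linarith

/-- number of vertices with many neighbours in the same far piece as `v` -/
theorem card_Ot2 (hP : PcX C g z θk θ' η a M S G d X) {y : ℝ} (hy : 0 < y) {v : V}
    (ha : 0 ≤ a) :
    ((univ.filter (fun w => ∃ m, Ot y G X v m ∧ Ot y G X w m)).card : ℝ) ≤
      ((nb (thin G X.P) v).card : ℝ) / y * (a * (d : ℝ) ^ 2 / y) := by
  set Ms : Finset (Fin N) := univ.filter (fun m => Ot y G X v m) with hMs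
  have h1 : ((univ.filter (fun w => ∃ m, Ot y G X v m ∧ Ot y G X w m)).card : ℝ) ≤
      ∑ m ∈ Ms, ((univ.filter (fun w => Ot y G X w m)).card : ℝ) := by
    have h2 : (univ.filter (fun w => ∃ m, Ot y G X v m ∧ Ot y G X w m)) ⊆
        Ms.biUnion (fun m => univ.filter (fun w => Ot y G X w m)) := by
      intro w hw
      obtain ⟨m, h4, h5⟩ := (mem_filter.1 hw).2
      exact mem_biUnion.2 ⟨m, mem_filter.2 ⟨mem_univ _, h4⟩, mem_filter.2 ⟨mem_univ _, h5⟩⟩
    exact_mod_cast (card_le_card h2).trans card_biUnion_le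
  have h2 : ∀ m, ((univ.filter (fun w => Ot y G X w m)).card : ℝ) ≤ a * (d : ℝ) ^ 2 / y := by
    intro m
    refine mkv _ (fun w => (av G X w m : ℝ)) hy ?_ (fun w hw => (mem_filter.1 hw).2.2)
    have := sum_av_out hP (univ.filter (fun w => Ot y G X w m)) m
      (fun w hw => (mem_filter.1 hw).2.1)
    push_cast at this
    exact this
  have h3 : (Ms.card : ℝ) ≤ ((nb (thin G X.P) v).card : ℝ) / y := by
    have h4 : ((∑ m ∈ Ms, av G X v m : ℕ) : ℝ) ≤ ((nb (thin G X.P) v).card : ℝ) := by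
      refine Nat.cast_le.2 (sum_av_le Ms fun m hm h => ?_)
      exact (mem_filter.1 hm).2.1 v h rfl
    push_cast at h4
    rw [le_div_iff₀ hy, ← nsmul_eq_mul]
    exact (card_nsmul_le_sum Ms (fun m => (av G X v m : ℝ)) y
      fun m hm => (mem_filter.1 hm).2.2).trans h4
  refine h1.trans ((sum_le_sum fun m _ => h2 m).trans ?_)
  rw [sum_const, nsmul_eq_mul]
  exact mul_le_mul_of_nonneg_right h3 (by positivity)

/-- number of conflicts -/
theorem card_CC (hP : PcX C g z θk θ' η a M S G d X) (hd : 0 < d) {y : ℝ} (hy : 0 < y) {v : V}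
    (ha : 0 ≤ a) (hv : InT X Ty.N v) (hζ : ∀ s, 0 < (S s).ζ) (hθ0 : ∀ s, 0 < (S s).θ)
    (hθ : ∀ s, (S s).θ ≤ (S s).ζ ^ 2) :
    (¬ Sp S G d X v → ((univ.filter (fun w => CC y S G d X v w)).card : ℝ) ≤
      Real.sqrt (S (X.sc (X.P.pc v))).θ * d) ∧
    ((univ.filter (fun w => CC y S G d X v w)).card : ℝ) ≤
      (10 ^ 6 + 1) * ((S (X.sc (X.P.pc v))).ζ * d) +
        M * ((Real.sqrt (S (X.sc (X.P.pc v))).θ + a) * d) +
        (S (X.sc (X.P.pc v))).ζ * d / y * (a * (d : ℝ) ^ 2 / y) := by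
  have hdR : (0 : ℝ) < d := by exact_mod_cast hd
  have hthd := hP.thd v (Or.inl hv)
  constructor
  · intro h
    have h1 : ((nb (thin G X.P) v).card : ℝ) < Real.sqrt (S (X.sc (X.P.pc v))).θ * d := by
      by_contra hcon
      exact h ⟨hv, Or.inl (not_lt.1 hcon)⟩
    refine le_trans (Nat.cast_le.2 (card_le_card ?_)) h1.le
    intro w hw
    rw [mem_filter] at hw
    rw [mem_nb]
    rcases hw.2.2.2 with h2 | h2
    · exact h2
    · exact absurd h2.1 h
  · have h1 : (univ.filter (fun w => CC y S G d X v w)) ⊆ nb (thin G X.P) v ∪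
        (univ.filter (fun w => Sp S G d X w ∧ X.cq w = X.cq v) ∪
        (univ.filter (fun w => Owd X w ∧ ∃ m, Bg S G d X v m ∧ Bg S G d X w m) ∪
        univ.filter (fun w => ∃ m, Ot y G X v m ∧ Ot y G X w m))) := by
      intro w hw
      rw [mem_filter] at hw
      rcases hw.2.2.2 with h2 | h2
      · exact mem_union_left _ ((mem_nb _ _ _).2 h2)
      · refine mem_union_right _ ?_
        rcases h2.2.2.2 with h3 | h3 | h3
        · exact mem_union_left _ (mem_filter.2 ⟨mem_univ _, h2.2.1, h3.symm⟩)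
        · exact mem_union_right _ (mem_union_left _ (mem_filter.2 ⟨mem_univ _,
            Or.inr hw.2.2.1, h3⟩))
        · exact mem_union_right _ (mem_union_right _ (mem_filter.2 ⟨mem_univ _, h3⟩))
    have h2 := (card_le_card h1).trans ((card_union_le _ _).trans (Nat.add_le_add_left
      ((card_union_le _ _).trans (Nat.add_le_add_left (card_union_le _ _) _)) _))
    have h3 : ((univ.filter (fun w => CC y S G d X v w)).card : ℝ) ≤
        ((nb (thin G X.P) v).card : ℝ) +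
        (((univ.filter (fun w => Sp S G d X w ∧ X.cq w = X.cq v)).card : ℝ) +
        (((univ.filter (fun w => Owd X w ∧ ∃ m, Bg S G d X v m ∧ Bg S G d X w m)).card : ℝ) +
        ((univ.filter (fun w => ∃ m, Ot y G X v m ∧ Ot y G X w m)).card : ℝ))) := by
      exact_mod_cast h2
    have h4 := card_Spc hP hd hv.1 (hθ0 _) ha
    have h5 := card_Bg2 hP hd hv hζ hθ
    have h6 := card_Ot2 (v := v) hP hy ha
    have h7 : ((nb (thin G X.P) v).card : ℝ) / y * (a * (d : ℝ) ^ 2 / y) ≤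
        (S (X.sc (X.P.pc v))).ζ * d / y * (a * (d : ℝ) ^ 2 / y) :=
      mul_le_mul_of_nonneg_right (div_le_div_of_nonneg_right hthd hy.le) (by positivity)
    linarith

end geo

end Pool.Agent.Work.MP_db9399_ownx
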