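import Pool.Agent.Work.MP_db9399_en.PROB2
import Pool.Agent.Work.MP_db9399_ow_helper12.SUBL
import Pool.Agent.Work.MP_db9399_ow_helper21.SYM
import Pool.Agent.Work.MP_db9399_all_helper6.LLLI

/-!
# MP_db9399, OWNX: list colouring of blocks with sparse conflict graph, with tests (helper62)

Every block chooses a random group of colours among the groups where its list is almost complete
(symmetric local lemma), then the groups are coloured greedily.
-/

set_option autoImplicit false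

namespace Pool.Agent.Work.MP_db9399_ownx

open Finset Classical
open Pool.Agent.Work.MP_db9399_all (nb pr DepOnI)
open Pool.Agent.Work.MP_db9399_en (ex)
open Pool.Agent.Work.MP_db9399_ow.helper12s (prc ex_coord)

universe u

theorem mem_nb' {X : Type u} [Fintype X] (G : SimpleGraph X) (v w : X) :
    w ∈ nb G v ↔ G.Adj v w := by
  unfold nb
  simp

/-- greedy colouring from lists -/
theorem greedy {I : Type u} [Fintype I] (Γ : SimpleGraph I) (L : I → Finset ℕ)
    (h : ∀ i, (nb Γ i).card < (L i).card) :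
    ∃ f : I → ℕ, (∀ i, f i ∈ L i) ∧ ∀ i j, Γ.Adj i j → f i ≠ f j := by
  have h1 : ∀ S : Finset I, ∃ f : I → ℕ, (∀ i ∈ S, f i ∈ L i) ∧
      ∀ i ∈ S, ∀ j ∈ S, Γ.Adj i j → f i ≠ f j := by
    intro S
    induction S using Finset.induction_on with
    | empty => exact ⟨fun _ => 0, by simp, by simp⟩
    | @insert i S hi ih =>
      obtain ⟨f, hf1, hf2⟩ := ih
      have h2 : ((nb Γ i).image f).card < (L i).card := lt_of_le_of_lt card_image_le (h i)
      obtain ⟨b, hb1, hb2⟩ : ∃ b ∈ L i, b ∉ (nb Γ i).image f := by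
        by_contra hcon
        push Not at hcon
        exact absurd (card_le_card (show L i ⊆ (nb Γ i).image f from hcon)) (not_le.2 h2)
      refine ⟨Function.update f i b, ?_, ?_⟩
      · intro j hj
        rcases mem_insert.1 hj with rfl | hj
        · rw [Function.update_self]
          exact hb1
        · rw [Function.update_of_ne (ne_of_mem_of_not_mem hj hi)]
          exact hf1 j hj
      · intro j hj l hl hjl
        rcases mem_insert.1 hj with ej | hj'
        · rcases mem_insert.1 hl with el | hl'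
          · rw [ej, el] at hjl
            exact absurd hjl (Γ.loopless.irrefl _)
          · rw [ej] at hjl ⊢
            rw [Function.update_self, Function.update_of_ne (ne_of_mem_of_not_mem hl' hi)]
            intro e
            exact hb2 (mem_image.2 ⟨l, (mem_nb' _ _ _).2 hjl, e.symm⟩)
        · rcases mem_insert.1 hl with el | hl'
          · rw [el] at hjl ⊢
            rw [Function.update_self, Function.update_of_ne (ne_of_mem_of_not_mem hj' hi)]
            intro e
            exact hb2 (mem_image.2 ⟨j, (mem_nb' _ _ _).2 hjl.symm, e⟩)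
          · rw [Function.update_of_ne (ne_of_mem_of_not_mem hj' hi),
              Function.update_of_ne (ne_of_mem_of_not_mem hl' hi)]
            exact hf2 j hj' l hl' hjl
  obtain ⟨f, hf1, hf2⟩ := h1 univ
  exact ⟨f, fun i => hf1 i (mem_univ _), fun i j hij => hf2 i (mem_univ _) j (mem_univ _) hij⟩

/-- residues -/
theorem card_mod {M h : ℕ} (hM : h ∣ M) (r : ℕ) :
    ((univ : Finset (Fin M)).filter (fun x : Fin M => (x : ℕ) % h = r)).card ≤ M / h := by
  have h1 : ((univ : Finset (Fin M)).filter (fun x : Fin M => (x : ℕ) % h = r)).card ≤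
      (range (M / h)).card := by
    apply card_le_card_of_injOn (fun x : Fin M => (x : ℕ) / h)
    · intro x _
      rw [mem_coe, mem_range]
      apply Nat.div_lt_of_lt_mul
      rw [Nat.mul_div_cancel' hM]
      exact x.2
    · intro x hx y hy hxy
      rw [mem_coe, mem_filter] at hx hy
      apply Fin.ext
      have h2 := Nat.div_add_mod (x : ℕ) h
      have h3 := Nat.div_add_mod (y : ℕ) h
      have h4 : (x : ℕ) / h = (y : ℕ) / h := hxy
      rw [hx.2] at h2
      rw [hy.2, ← h4] at h3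
      omega
  rwa [card_range] at h1

/-- a uniform choice from a finite set -/
theorem pick {n M : ℕ} (H : Finset (Fin n)) (hH : 0 < H.card) (hM : H.card ∣ M) :
    ∃ p : Fin M → Fin n, (∀ x, p x ∈ H) ∧
      ∀ g, ((univ.filter (fun x => p x = g)).card : ℝ) ≤ M / H.card := by
  have hlt : ∀ x : Fin M, (x : ℕ) % H.card < H.card := fun x => Nat.mod_lt _ hH
  refine ⟨fun x => (H.equivFin.symm ⟨(x : ℕ) % H.card, hlt x⟩).1, fun x =>
    (H.equivFin.symm ⟨(x : ℕ) % H.card, hlt x⟩).2, fun g => ?_⟩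
  by_cases hg : g ∈ H
  · have h1 : (univ.filter (fun x : Fin M =>
        (H.equivFin.symm ⟨(x : ℕ) % H.card, hlt x⟩).1 = g)).card ≤ M / H.card := by
      refine le_trans (card_le_card ?_) (card_mod hM (H.equivFin ⟨g, hg⟩).1)
      intro x hx
      rw [mem_filter] at hx ⊢
      refine ⟨mem_univ _, ?_⟩
      have h2 : H.equivFin.symm ⟨(x : ℕ) % H.card, hlt x⟩ = ⟨g, hg⟩ := Subtype.ext hx.2
      have h3 := congrArg H.equivFin h2
      rw [Equiv.apply_symm_apply] at h3
      exact congrArg Fin.val h3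
    have h2 : ((M / H.card : ℕ) : ℝ) ≤ (M : ℝ) / H.card := Nat.cast_div_le
    exact le_trans (by exact_mod_cast h1) h2
  · have h1 : (univ.filter (fun x : Fin M =>
        (H.equivFin.symm ⟨(x : ℕ) % H.card, hlt x⟩).1 = g)) = ∅ := by
      rw [filter_eq_empty_iff]
      intro x _ e
      exact hg (e ▸ (H.equivFin.symm ⟨(x : ℕ) % H.card, hlt x⟩).2)
    rw [h1]
    simp
    positivity

/-- most groups are good -/
theorem good {k m : ℕ} {ν : ℝ} (hν : 0 < ν) (L : Finset ℕ) (hL : L ⊆ range k)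
    (hc : (1 - ν ^ 2 / 200) * k ≤ (L.card : ℝ)) (hm : 0 < m) (hk : 0 < k)
    (hmk : 8 * (m : ℝ) / (ν * k) ≤ ν / 100) :
    (1 - ν / 20) * m ≤ ((univ.filter (fun g : Fin m =>
      (1 - ν / 8) * ((k : ℝ) / m) ≤ ((L.filter (fun b => b % m = g.1)).card : ℝ))).card : ℝ) := by
  have hmR : (0 : ℝ) < m := by exact_mod_cast hm
  have hkR : (0 : ℝ) < k := by exact_mod_cast hk
  set Gd : Finset (Fin m) := univ.filter (fun g : Fin m =>
      (1 - ν / 8) * ((k : ℝ) / m) ≤ ((L.filter (fun b => b % m = g.1)).card : ℝ)) with hGd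
  have h1 : (L.card : ℝ) = ∑ g : Fin m, ((L.filter (fun b => b % m = g.1)).card : ℝ) := by
    have : L.card = ∑ g : Fin m, (L.filter (fun b => b % m = g.1)).card := by
      rw [card_eq_sum_card_fiberwise (f := fun b => (⟨b % m, Nat.mod_lt _ hm⟩ : Fin m))
        (s := L) (t := univ) (fun _ _ => mem_univ _)]
      refine sum_congr rfl fun g _ => ?_
      congr 1
      ext b
      simp only [mem_filter, Fin.ext_iff]
    exact_mod_cast this
  have h2 : ∀ g : Fin m, ((L.filter (fun b => b % m = g.1)).card : ℝ) ≤ (k : ℝ) / m + 1 := by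
    intro g
    have h3 : (L.filter (fun b => b % m = g.1)).card ≤ (range (k / m + 1)).card := by
      apply card_le_card_of_injOn (fun x => x / m)
      · intro x hx
        rw [mem_coe, mem_filter] at hx
        rw [mem_coe, mem_range]
        have := mem_range.1 (hL hx.1)
        exact Nat.lt_succ_of_le (Nat.div_le_div_right this.le)
      · intro x hx y hy hxy
        rw [mem_coe, mem_filter] at hx hy
        have h2 := Nat.div_add_mod x m
        have h3 := Nat.div_add_mod y m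
        have h4 : x / m = y / m := hxy
        rw [hx.2] at h2
        rw [hy.2, ← h4] at h3
        omega
    rw [card_range] at h3
    have h4 : ((k / m : ℕ) : ℝ) ≤ (k : ℝ) / m := Nat.cast_div_le
    have h5 : ((L.filter (fun b => b % m = g.1)).card : ℝ) ≤ ((k / m + 1 : ℕ) : ℝ) := by
      exact_mod_cast h3
    push_cast at h5
    linarith
  have h3 : (L.card : ℝ) ≤ ∑ g : Fin m, ((k : ℝ) / m + 1) -
      ∑ g ∈ univ.filter (fun g => g ∉ Gd), (ν / 8 * ((k : ℝ) / m)) := by
    rw [h1, ← sum_filter_add_sum_filter_not univ (fun g => g ∈ Gd)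
      (fun g : Fin m => ((L.filter (fun b => b % m = g.1)).card : ℝ)),
      ← sum_filter_add_sum_filter_not univ (fun g => g ∈ Gd) (fun _ : Fin m => (k : ℝ) / m + 1)]
    have h4 : ∑ g ∈ univ.filter (fun g => g ∈ Gd), ((L.filter (fun b => b % m = g.1)).card : ℝ) ≤
        ∑ g ∈ univ.filter (fun g => g ∈ Gd), ((k : ℝ) / m + 1) := sum_le_sum fun g _ => h2 g
    have h5 : ∑ g ∈ univ.filter (fun g => g ∉ Gd), ((L.filter (fun b => b % m = g.1)).card : ℝ) ≤
        ∑ g ∈ univ.filter (fun g => g ∉ Gd), ((k : ℝ) / m + 1) -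
          ∑ g ∈ univ.filter (fun g => g ∉ Gd), (ν / 8 * ((k : ℝ) / m)) := by
      rw [← sum_sub_distrib]
      refine sum_le_sum fun g hg => ?_
      rw [mem_filter, hGd, mem_filter, not_and] at hg
      have := hg.2 (mem_univ _)
      rw [not_le] at this
      linarith
    linarith
  rw [sum_const, sum_const, card_univ, Fintype.card_fin, nsmul_eq_mul, nsmul_eq_mul] at h3
  have h4 : ((univ.filter (fun g => g ∉ Gd)).card : ℝ) = m - Gd.card := by
    have h5 : (univ.filter (fun g => g ∈ Gd)).card + (univ.filter (fun g => g ∉ Gd)).card =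
        m := by
      rw [card_filter_add_card_filter_not, card_univ, Fintype.card_fin]
    have h6 : univ.filter (fun g => g ∈ Gd) = Gd := by
      ext g
      simp
    rw [h6] at h5
    have : (Gd.card : ℝ) + ((univ.filter (fun g => g ∉ Gd)).card : ℝ) = m := by exact_mod_cast h5
    linarith
  rw [h4] at h3
  have h5 : (m : ℝ) * ((k : ℝ) / m + 1) = k + m := by field_simp
  rw [h5] at h3
  have h6 : ((m : ℝ) - Gd.card) * (ν / 8 * ((k : ℝ) / m)) ≤ ν ^ 2 / 200 * k + m := by linarith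
  have h7 : (m : ℝ) - Gd.card ≤ (ν ^ 2 / 200 * k + m) / (ν / 8 * ((k : ℝ) / m)) := by
    rw [le_div_iff₀ (by positivity)]
    exact h6
  have h8 : (ν ^ 2 / 200 * k + m) / (ν / 8 * ((k : ℝ) / m)) = m * (ν / 25 + 8 * m / (ν * k)) := by
    field_simp
    ring
  have h9 : (m : ℝ) * (ν / 25 + 8 * m / (ν * k)) ≤ m * (ν / 25 + ν / 100) :=
    mul_le_mul_of_nonneg_left (by linarith) hmR.le
  have h10 : (m : ℝ) * (ν / 25 + ν / 100) = ν / 20 * m := by ring
  linarith

section tail
variable {I : Type u} [Fintype I] {M m : ℕ}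

/-- the sum of the weights of the elements of `S` with index `g` -/
noncomputable def Z (p : I → Fin M → Fin m) (S : Finset I) (w : I → ℝ) (g : Fin m)
    (ω : I → Fin M) : ℝ := ∑ i ∈ S, if p i (ω i) = g then w i else 0

omit [Fintype I] in
theorem depZ (p : I → Fin M → Fin m) (S : Finset I) (w : I → ℝ) (g : Fin m) (x : ℝ) :
    DepOnI S (fun ω => x ≤ Z p S w g ω) := by
  intro a b hab
  have h1 : Z p S w g a = Z p S w g b := by
    unfold Z
    exact sum_congr rfl fun i hi => by rw [hab i hi]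
  simp only [h1]

theorem tail (hM : 0 < M) (p : I → Fin M → Fin m) (q : I → ℝ) (S : Finset I) (w : I → ℝ)
    (g : Fin m) {B μ s : ℝ}
    (hq : ∀ i, ((univ.filter (fun x => p i x = g)).card : ℝ) ≤ q i * M)
    (h0 : ∀ i, 0 ≤ w i) (hB : ∀ i ∈ S, w i ≤ B) (hB0 : 0 < B) (hμ : 0 < μ)
    (hm : ∑ i ∈ S, q i * w i ≤ μ) (hs : 0 ≤ s) :
    prc (fun ω : I → Fin M => μ + s ≤ Z p S w g ω) ≤
      Real.exp (-(min (s ^ 2 / (4 * B * μ)) (s / (2 * B)))) := by
  have hMR : (0 : ℝ) < M := by exact_mod_cast hM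
  unfold Z prc
  refine Pool.Agent.Work.MP_db9399_en.chern_up hM S (fun i => {i})
    (fun i ω => if p i (ω i) = g then w i else 0) ?_ ?_ ?_ ?_ hB0 hμ ?_ hs
  · intro i _ a b hab
    have := hab i (mem_singleton_self i)
    simp only [this]
  · intro i _ i' _ hne
    rw [disjoint_singleton]
    exact hne
  · intro i _ ω
    split_ifs
    · exact h0 i
    · exact le_rfl
  · intro i hi ω
    split_ifs
    · exact hB i hi
    · exact hB0.le
  · refine le_trans (sum_le_sum fun i hi => ?_) hm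
    rw [ex_coord hM i (fun x => if p i x = g then w i else 0)]
    rw [← sum_filter, sum_const, nsmul_eq_mul, div_le_iff₀ hMR]
    calc ((univ.filter (fun x => p i x = g)).card : ℝ) * w i ≤ q i * M * w i :=
          mul_le_mul_of_nonneg_right (hq i) (h0 i)
      _ = q i * w i * M := by ring

end tail

/-- numbers -/
theorem nums (ν0 γ : ℝ) (A : ℕ) (hν0 : 0 < ν0) (hγ : 0 < γ) :
    ∃ k0 : ℕ, ∀ k : ℕ, k0 ≤ k → 1 ≤ k ∧ 1600 / ν0 ^ 2 ≤ (k : ℝ) ^ γ ∧
      96 * (k : ℝ) ^ (2 * A + 1) * Real.exp (-(min (ν0 ^ 2 / 128) (1 / 8) * (k : ℝ) ^ γ)) ≤ 1 := by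
  set c : ℝ := min (ν0 ^ 2 / 128) (1 / 8) with hc
  have hc0 : 0 < c := lt_min (by positivity) (by norm_num)
  have h1 : Filter.Tendsto (fun k : ℕ => (k : ℝ) ^ γ) Filter.atTop Filter.atTop :=
    (tendsto_rpow_atTop hγ).comp tendsto_natCast_atTop_atTop
  have h2 := (isLittleO_exp_neg_mul_rpow_atTop hc0 (-((2 * A + 1 : ℕ) : ℝ) / γ)).comp_tendsto h1
  have h3 := h2.def (show (0 : ℝ) < 1 / 96 by norm_num)
  have h4 := h1.eventually_ge_atTop (1600 / ν0 ^ 2)
  obtain ⟨k0, hk0⟩ := Filter.eventually_atTop.1 ((h3.and h4).and (Filter.eventually_ge_atTop 1))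
  refine ⟨k0, fun k hk => ?_⟩
  obtain ⟨⟨h5, h6⟩, h7⟩ := hk0 k hk
  refine ⟨h7, h6, ?_⟩
  have hkR : (0 : ℝ) < k := by exact_mod_cast h7
  simp only [Function.comp_apply, Real.norm_eq_abs] at h5
  rw [abs_of_nonneg (Real.exp_pos _).le, abs_of_nonneg (Real.rpow_nonneg
    (Real.rpow_nonneg hkR.le _) _), ← Real.rpow_mul hkR.le] at h5
  have h8 : γ * (-((2 * A + 1 : ℕ) : ℝ) / γ) = -((2 * A + 1 : ℕ) : ℝ) := by
    field_simp
  rw [h8, Real.rpow_neg hkR.le, Real.rpow_natCast] at h5
  have h9 : -(c * (k : ℝ) ^ γ) = -c * (k : ℝ) ^ γ := by ring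
  rw [h9]
  calc 96 * (k : ℝ) ^ (2 * A + 1) * Real.exp (-c * (k : ℝ) ^ γ) ≤
      96 * (k : ℝ) ^ (2 * A + 1) * (1 / 96 * ((k : ℝ) ^ (2 * A + 1))⁻¹) :=
        mul_le_mul_of_nonneg_left h5 (by positivity)
    _ = 1 := by
      field_simp

/-- **List colouring of blocks** with tests. -/
theorem lidx (ν0 γ : ℝ) (A : ℕ) (hν0 : 0 < ν0) (hγ : 0 < γ) (hγ1 : γ < 1) (hA : 1 ≤ A) :
    ∃ k0 : ℕ, ∀ (I : Type u) [Fintype I] (κ : Type u) [Fintype κ] (k : ℕ) (Γ : SimpleGraph I)
      (L : I → Finset ℕ) (ν : I → ℝ) (a : κ → I → ℝ) (K Sg : κ → ℝ), k0 ≤ k →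
      (∀ i, ν0 ≤ ν i ∧ ν i ≤ 1) → (∀ i, L i ⊆ range k) →
      (∀ i, (1 - ν i ^ 2 / 200) * k ≤ ((L i).card : ℝ)) →
      (∀ i, ∑ j ∈ nb Γ i, 1 / (1 - ν j / 20) ≤ (1 - ν i / 2) * k) →
      (∀ q, 0 < K q) → (∀ q i, 0 ≤ a q i) → (∀ q i, a q i ≤ K q) →
      (∀ q, ∑ i, a q i ≤ Sg q) →
      (∀ q, ((univ.filter (fun i => a q i ≠ 0)).card : ℝ) ≤ (k : ℝ) ^ A) →
      (∀ i, ((univ.filter (fun q => a q i ≠ 0)).card : ℝ) ≤ (k : ℝ) ^ A) →
      ∃ f : I → ℕ, (∀ i, f i ∈ L i) ∧ (∀ i j, Γ.Adj i j → f i ≠ f j) ∧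
        ∀ q b, ∑ i ∈ univ.filter (fun i => f i = b), a q i ≤
          4 * Sg q * (k : ℝ) ^ (γ - 1) + K q * (k : ℝ) ^ γ := by
  obtain ⟨k0, hk0⟩ := nums ν0 γ A hν0 hγ
  refine ⟨k0, ?_⟩
  intro I _ κ _ k Γ L ν a K Sg hk hν hL hLc hdeg hK ha0 haK hSg hs1 hs2
  obtain ⟨hk1, hy, hexp⟩ := hk0 k hk
  have hkR : (0 : ℝ) < k := by exact_mod_cast hk1
  have hkR1 : (1 : ℝ) ≤ k := by exact_mod_cast hk1
  set y : ℝ := (k : ℝ) ^ γ with hydef
  set c : ℝ := min (ν0 ^ 2 / 128) (1 / 8) with hc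
  have hy0 : 0 < y := Real.rpow_pos_of_pos hkR _
  have hy1 : 1 ≤ y := Real.one_le_rpow hkR1 hγ.le
  set z : ℝ := (k : ℝ) ^ (1 - γ) with hzdef
  have hz0 : 0 < z := Real.rpow_pos_of_pos hkR _
  have hz1 : 1 ≤ z := Real.one_le_rpow hkR1 (by linarith)
  have hzy : z * y = k := by
    rw [hzdef, hydef, ← Real.rpow_add hkR]
    simp
  have hzinv : (k : ℝ) ^ (γ - 1) = 1 / z := by
    rw [hzdef, show γ - 1 = -(1 - γ) by ring, Real.rpow_neg hkR.le, one_div]
  set m : ℕ := ⌈z⌉₊ with hm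
  have hmz : z ≤ m := Nat.le_ceil _
  have hmz2 : (m : ℝ) ≤ 2 * z := by
    have := Nat.ceil_lt_add_one hz0.le
    linarith
  have hm0 : 0 < m := Nat.ceil_pos.2 hz0
  have hmR : (0 : ℝ) < m := by exact_mod_cast hm0
  have hmk : m ≤ k := by
    apply Nat.ceil_le.2
    nlinarith
  have hmkR : (m : ℝ) ≤ k := by exact_mod_cast hmk
  set x : ℝ := (k : ℝ) / m with hx
  have hx0 : 0 < x := by positivity
  have hxy : y / 2 ≤ x := by
    rw [hx, le_div_iff₀ hmR]
    nlinarith
  have hν1 : ∀ i, 0 < ν i := fun i => lt_of_lt_of_le hν0 (hν i).1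
  -- good groups
  let H : I → Finset (Fin m) := fun i => univ.filter (fun g : Fin m =>
      (1 - ν i / 8) * x ≤ (((L i).filter (fun b => b % m = g.1)).card : ℝ))
  have hH : ∀ i, (1 - ν i / 20) * m ≤ ((H i).card : ℝ) := by
    intro i
    refine good (hν1 i) (L i) (hL i) (hLc i) hm0 hk1 ?_
    have h1 : 1600 ≤ ν i ^ 2 * y := by
      have h2 : 1600 / ν0 ^ 2 ≤ y := hy
      rw [div_le_iff₀ (by positivity)] at h2
      have h3 : ν0 ^ 2 ≤ ν i ^ 2 := pow_le_pow_left₀ hν0.le (hν i).1 2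
      nlinarith
    rw [div_le_div_iff₀ (mul_pos (hν1 i) hkR) (by norm_num)]
    have h4 : 8 * (m : ℝ) * 100 ≤ 1600 * z := by linarith
    have h5 : 1600 * z ≤ ν i ^ 2 * y * z := mul_le_mul_of_nonneg_right h1 hz0.le
    calc 8 * (m : ℝ) * 100 ≤ 1600 * z := h4
      _ ≤ ν i ^ 2 * y * z := h5
      _ = ν i * (ν i * k) := by rw [← hzy]; ring
  have hHc0 : ∀ i, 0 < (H i).card := by
    intro i
    have h1 := hH i
    have h2 : 0 < (1 - ν i / 20) * m := mul_pos (by linarith [(hν i).2]) hmR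
    have : (0 : ℝ) < ((H i).card : ℝ) := lt_of_lt_of_le h2 h1
    exact_mod_cast this
  have hHdvd : ∀ i, (H i).card ∣ m.factorial := by
    intro i
    apply Nat.dvd_factorial (hHc0 i)
    have := card_le_univ (H i)
    rwa [Fintype.card_fin] at this
  have hp : ∀ i, ∃ p : Fin m.factorial → Fin m, (∀ x, p x ∈ H i) ∧
      ∀ g, ((univ.filter (fun x => p x = g)).card : ℝ) ≤ (m.factorial : ℕ) / (H i).card :=
    fun i => pick (H i) (hHc0 i) (hHdvd i)
  choose p hp1 hp2 using hp
  have hM : 0 < m.factorial := Nat.factorial_pos m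
  have hMR : (0 : ℝ) < (m.factorial : ℕ) := by exact_mod_cast hM
  have hq : ∀ i g, ((univ.filter (fun x => p i x = g)).card : ℝ) ≤
      1 / (1 - ν i / 20) / m * (m.factorial : ℕ) := by
    intro i g
    refine (hp2 i g).trans ?_
    have h2 : 0 < (1 - ν i / 20) * m := mul_pos (by linarith [(hν i).2]) hmR
    have h3 : ((m.factorial : ℕ) : ℝ) / (H i).card ≤ (m.factorial : ℕ) / ((1 - ν i / 20) * m) :=
      div_le_div_of_nonneg_left hMR.le h2 (hH i)
    refine h3.trans (le_of_eq ?_)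
    field_simp
  -- degrees
  have hden : ∀ j, 1 ≤ 1 / (1 - ν j / 20) ∧ 1 / (1 - ν j / 20) ≤ 2 := by
    intro j
    have h1 : 0 < 1 - ν j / 20 := by linarith [(hν j).2]
    rw [le_div_iff₀ h1, div_le_iff₀ h1]
    constructor
    · linarith [hν1 j]
    · linarith [(hν j).2]
  have hnbk : ∀ i, ((nb Γ i).card : ℝ) ≤ k := by
    intro i
    have h1 := hdeg i
    have h2 : ∑ j ∈ nb Γ i, (1 : ℝ) ≤ ∑ j ∈ nb Γ i, 1 / (1 - ν j / 20) :=
      sum_le_sum fun j _ => (hden j).1
    rw [sum_const, nsmul_eq_mul, mul_one] at h2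
    nlinarith [hν1 i]
  -- tails
  let μ1 : I → ℝ := fun i => (1 - ν i / 2) * x
  let μ2 : κ → ℝ := fun q => 2 * Sg q * (k : ℝ) ^ (γ - 1) + K q * y / 2
  let sp : κ → Finset I := fun q => univ.filter (fun i => a q i ≠ 0)
  have hSg0 : ∀ q, 0 ≤ Sg q := fun q => (sum_nonneg fun i _ => ha0 q i).trans (hSg q)
  have hμ2 : ∀ q, K q * y / 2 ≤ μ2 q := by
    intro q
    have : 0 ≤ 2 * Sg q * (k : ℝ) ^ (γ - 1) :=
      mul_nonneg (mul_nonneg (by norm_num) (hSg0 q)) (Real.rpow_nonneg hkR.le _)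
    simp only [μ2]
    linarith
  have ht1 : ∀ i g, prc (fun ω : I → Fin m.factorial => μ1 i + ν i / 4 * x ≤
      Z p (nb Γ i) (fun _ => 1) g ω) ≤ Real.exp (-(c * y)) := by
    intro i g
    have h2 : 0 < 1 - ν i / 2 := by linarith [(hν i).2]
    have hνi := hν1 i
    have hμp : 0 < μ1 i := mul_pos h2 hx0
    refine (tail hM p (fun j => 1 / (1 - ν j / 20) / m) (nb Γ i) (fun _ => 1) g
      (B := 1) (μ := μ1 i) (s := ν i / 4 * x) (fun j => hq j g) (fun _ => zero_le_one)
      (fun _ _ => le_rfl) one_pos hμp ?_ (by positivity)).trans ?_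
    · simp only [mul_one]
      rw [← sum_div, div_le_iff₀ hmR]
      refine (hdeg i).trans (le_of_eq ?_)
      simp only [μ1, hx]
      field_simp
    · apply Real.exp_le_exp.2
      apply neg_le_neg
      have h3 : c * y ≤ ν i ^ 2 / 64 * x := by
        have h4 : c ≤ ν i ^ 2 / 128 := (min_le_left _ _).trans (by
          have := pow_le_pow_left₀ hν0.le (hν i).1 2
          linarith)
        calc c * y ≤ ν i ^ 2 / 128 * y := mul_le_mul_of_nonneg_right h4 hy0.le
          _ = ν i ^ 2 / 64 * (y / 2) := by ring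
          _ ≤ ν i ^ 2 / 64 * x := mul_le_mul_of_nonneg_left hxy (by positivity)
      apply le_min
      · rw [le_div_iff₀ (by positivity)]
        calc c * y * (4 * 1 * μ1 i) ≤ ν i ^ 2 / 64 * x * (4 * 1 * μ1 i) :=
              mul_le_mul_of_nonneg_right h3 (by positivity)
          _ = ν i ^ 2 / 16 * x ^ 2 * (1 - ν i / 2) := by
              simp only [μ1]
              ring
          _ ≤ ν i ^ 2 / 16 * x ^ 2 * 1 :=
              mul_le_mul_of_nonneg_left (by linarith) (by positivity)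
          _ = (ν i / 4 * x) ^ 2 := by ring
      · refine h3.trans ?_
        have h5 : ν i ^ 2 ≤ ν i := by nlinarith [(hν i).2]
        have h6 : ν i ^ 2 / 64 * x ≤ ν i / 64 * x :=
          mul_le_mul_of_nonneg_right (by linarith) hx0.le
        have h7 : ν i / 64 * x ≤ ν i / 4 * x / (2 * 1) := by
          have : 0 ≤ ν i * x := by positivity
          linarith
        linarith
  have ht2 : ∀ q g, prc (fun ω : I → Fin m.factorial => μ2 q + μ2 q ≤
      Z p (sp q) (a q) g ω) ≤ Real.exp (-(c * y)) := by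
    intro q g
    have hKq := hK q
    have hμp : 0 < μ2 q := lt_of_lt_of_le (by positivity) (hμ2 q)
    refine (tail hM p (fun j => 1 / (1 - ν j / 20) / m) (sp q) (a q) g
      (B := K q) (μ := μ2 q) (s := μ2 q) (fun j => hq j g) (ha0 q)
      (fun i _ => haK q i) hKq hμp ?_ hμp.le).trans ?_
    · have h1 : ∑ i ∈ sp q, 1 / (1 - ν i / 20) / m * a q i ≤ ∑ i ∈ sp q, 2 / m * a q i := by
        refine sum_le_sum fun i _ => mul_le_mul_of_nonneg_right ?_ (ha0 q i)
        exact div_le_div_of_nonneg_right (hden i).2 hmR.le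
      have h2 : ∑ i ∈ sp q, a q i ≤ Sg q :=
        (sum_le_sum_of_subset_of_nonneg (subset_univ _) fun i _ _ => ha0 q i).trans (hSg q)
      rw [← mul_sum] at h1
      have h3 : 2 / (m : ℝ) * ∑ i ∈ sp q, a q i ≤ 2 / m * Sg q :=
        mul_le_mul_of_nonneg_left h2 (by positivity)
      have h4 : 2 / (m : ℝ) * Sg q ≤ 2 / z * Sg q :=
        mul_le_mul_of_nonneg_right (div_le_div_of_nonneg_left (by norm_num) hz0 hmz) (hSg0 q)
      have h5 : 2 / z * Sg q = 2 * Sg q * (k : ℝ) ^ (γ - 1) := by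
        rw [hzinv]
        ring
      have h6 : 0 ≤ K q * y / 2 := by positivity
      simp only [μ2]
      linarith
    · apply Real.exp_le_exp.2
      apply neg_le_neg
      have h4 : c ≤ 1 / 8 := min_le_right _ _
      have h5 : c * y ≤ 1 / 8 * y := mul_le_mul_of_nonneg_right h4 hy0.le
      have h6 := hμ2 q
      apply le_min
      · rw [le_div_iff₀ (by positivity)]
        have h7 : c * y * (4 * K q * μ2 q) ≤ 1 / 8 * y * (4 * K q * μ2 q) :=
          mul_le_mul_of_nonneg_right h5 (by positivity)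
        have h8 : 1 / 8 * y * (4 * K q * μ2 q) = K q * y / 2 * μ2 q := by ring
        have h9 : K q * y / 2 * μ2 q ≤ μ2 q * μ2 q := mul_le_mul_of_nonneg_right h6 hμp.le
        rw [sq]
        linarith
      · rw [le_div_iff₀ (by positivity)]
        have h7 : c * y * (2 * K q) ≤ 1 / 8 * y * (2 * K q) :=
          mul_le_mul_of_nonneg_right h5 (by positivity)
        have h8 : 0 ≤ K q * y := by positivity
        linarith
  -- local lemma
  have hSYM := Pool.Agent.Work.MP_db9399_ow.helper21.stmt_SYM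
    (Pool.Agent.Work.MP_db9399_all.stmt_LLLI.{u})
  obtain ⟨ω, hω⟩ := hSYM I m.factorial ((I × Fin m) ⊕ (κ × Fin m))
    (Sum.elim (fun e => nb Γ e.1) (fun e => sp e.1))
    (Sum.elim (fun e ω => μ1 e.1 + ν e.1 / 4 * x ≤ Z p (nb Γ e.1) (fun _ => 1) e.2 ω)
      (fun e ω => μ2 e.1 + μ2 e.1 ≤ Z p (sp e.1) (a e.1) e.2 ω))
    (Real.exp (-(c * y))) ((k : ℝ) ^ A) (2 * (k : ℝ) ^ (A + 1)) hM (by positivity)
    (by positivity)
    (by
      rintro (⟨i, g⟩ | ⟨q, g⟩)
      · exact depZ p (nb Γ i) (fun _ => 1) g _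
      · exact depZ p (sp q) (a q) g _)
    (by
      rintro (⟨i, g⟩ | ⟨q, g⟩)
      · simp only [Sum.elim_inl]
        refine (hnbk i).trans ?_
        calc (k : ℝ) = (k : ℝ) ^ 1 := (pow_one _).symm
          _ ≤ (k : ℝ) ^ A := pow_le_pow_right₀ hkR1 hA
      · exact hs1 q)
    (by
      intro i
      have h1 : (univ.filter (fun e : (I × Fin m) ⊕ (κ × Fin m) => i ∈
          (Sum.elim (fun e : I × Fin m => nb Γ e.1) (fun e : κ × Fin m => sp e.1) e :
            Finset I))) ⊆
          ((nb Γ i) ×ˢ (univ : Finset (Fin m))).image Sum.inl ∪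
          ((univ.filter (fun q => a q i ≠ 0)) ×ˢ (univ : Finset (Fin m))).image Sum.inr := by
        rintro (⟨j, g⟩ | ⟨q, g⟩) he
        · rw [mem_filter] at he
          have h2 := he.2
          simp only [Sum.elim_inl] at h2
          rw [mem_nb'] at h2
          refine mem_union_left _ (mem_image.2 ⟨(j, g), ?_, rfl⟩)
          exact mem_product.2 ⟨(mem_nb' _ _ _).2 h2.symm, mem_univ _⟩
        · rw [mem_filter] at he
          have h2 := he.2
          simp only [Sum.elim_inr, sp, mem_filter] at h2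
          refine mem_union_right _ (mem_image.2 ⟨(q, g), ?_, rfl⟩)
          exact mem_product.2 ⟨mem_filter.2 ⟨mem_univ _, h2.2⟩, mem_univ _⟩
      have h2 := (card_le_card h1).trans ((card_union_le _ _).trans
        (Nat.add_le_add card_image_le card_image_le))
      rw [card_product, card_product, card_univ, Fintype.card_fin] at h2
      have h3 : ((univ.filter (fun e : (I × Fin m) ⊕ (κ × Fin m) => i ∈
          (Sum.elim (fun e : I × Fin m => nb Γ e.1) (fun e : κ × Fin m => sp e.1) e :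
            Finset I))).card : ℝ) ≤ ((nb Γ i).card : ℝ) * m +
            ((univ.filter (fun q => a q i ≠ 0)).card : ℝ) * m := by exact_mod_cast h2
      refine h3.trans ?_
      have h4 : ((nb Γ i).card : ℝ) * m ≤ k * k :=
        mul_le_mul (hnbk i) hmkR hmR.le hkR.le
      have h5 : ((univ.filter (fun q => a q i ≠ 0)).card : ℝ) * m ≤ (k : ℝ) ^ A * k :=
        mul_le_mul (hs2 i) hmkR hmR.le (by positivity)
      have h6 : (k : ℝ) * k ≤ (k : ℝ) ^ (A + 1) := by
        rw [← sq]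
        exact pow_le_pow_right₀ hkR1 (by omega)
      have h7 : (k : ℝ) ^ (A + 1) = (k : ℝ) ^ A * k := pow_succ _ _
      linarith)
    (Real.exp_pos _).le
    (by
      rintro (⟨i, g⟩ | ⟨q, g⟩)
      · exact ht1 i g
      · exact ht2 q g)
    (by
      have h1 : (k : ℝ) ^ A + 1 ≤ 2 * (k : ℝ) ^ A := by
        have := one_le_pow₀ (n := A) hkR1
        linarith
      have h2 : 2 * (k : ℝ) ^ (A + 1) + 1 ≤ 3 * (k : ℝ) ^ (A + 1) := by
        have := one_le_pow₀ (n := A + 1) hkR1
        linarith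
      have he := Real.exp_pos (-(c * y))
      calc 16 * Real.exp (-(c * y)) * ((k : ℝ) ^ A + 1) * (2 * (k : ℝ) ^ (A + 1) + 1) ≤
          16 * Real.exp (-(c * y)) * (2 * (k : ℝ) ^ A) * (3 * (k : ℝ) ^ (A + 1)) := by
            apply mul_le_mul _ h2 (by positivity) (by positivity)
            exact mul_le_mul_of_nonneg_left h1 (by positivity)
        _ = 96 * (k : ℝ) ^ (2 * A + 1) * Real.exp (-(c * y)) := by
            rw [show 2 * A + 1 = A + (A + 1) by ring, pow_add]
            ring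
        _ ≤ 1 := hexp)
  -- greedy colouring inside the groups
  let ix : I → Fin m := fun i => p i (ω i)
  let Γ' : SimpleGraph I :=
    { Adj := fun i j => Γ.Adj i j ∧ ix i = ix j
      symm := ⟨fun _ _ h => ⟨h.1.symm, h.2.symm⟩⟩
      loopless := ⟨fun i h => Γ.loopless.irrefl i h.1⟩ }
  obtain ⟨f, hf1, hf2⟩ := greedy Γ' (fun i => (L i).filter (fun b => b % m = (ix i).1)) (by
    intro i
    have h1 := hω (Sum.inl (i, ix i))
    simp only [Sum.elim_inl, not_le] at h1
    have h2 : ((nb Γ' i).card : ℝ) ≤ Z p (nb Γ i) (fun _ => 1) (ix i) ω := by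
      unfold Z
      rw [← sum_filter, sum_const, nsmul_eq_mul, mul_one]
      refine Nat.cast_le.2 (card_le_card ?_)
      intro j hj
      rw [mem_nb'] at hj
      exact mem_filter.2 ⟨(mem_nb' _ _ _).2 hj.1, hj.2.symm⟩
    have h3 : ix i ∈ H i := hp1 i (ω i)
    have h4 := (mem_filter.1 h3).2
    have h5 : μ1 i + ν i / 4 * x ≤ (1 - ν i / 8) * x := by
      simp only [μ1]
      have : 0 ≤ ν i * x := mul_nonneg (hν1 i).le hx0.le
      linarith
    have h6 : ((nb Γ' i).card : ℝ) <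
        (((L i).filter (fun b => b % m = (ix i).1)).card : ℝ) := by linarith
    exact_mod_cast h6)
  refine ⟨f, fun i => (mem_filter.1 (hf1 i)).1, ?_, ?_⟩
  · intro i j hij e
    refine hf2 i j ⟨hij, ?_⟩ e
    have h1 := (mem_filter.1 (hf1 i)).2
    have h2 := (mem_filter.1 (hf1 j)).2
    exact Fin.ext (by rw [← h1, ← h2, e])
  · intro q b
    have h1 := hω (Sum.inr (q, (⟨b % m, Nat.mod_lt _ hm0⟩ : Fin m)))
    simp only [Sum.elim_inr, not_le] at h1
    have h2 : ∑ i ∈ univ.filter (fun i => f i = b), a q i ≤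
        Z p (sp q) (a q) (⟨b % m, Nat.mod_lt _ hm0⟩ : Fin m) ω := by
      unfold Z
      rw [← sum_filter]
      have h3 : ∑ i ∈ univ.filter (fun i => f i = b), a q i =
          ∑ i ∈ (univ.filter (fun i => f i = b)).filter (fun i => a q i ≠ 0), a q i := by
        rw [sum_filter_ne_zero]
      rw [h3]
      refine sum_le_sum_of_subset_of_nonneg ?_ fun i _ _ => ha0 q i
      intro i hi
      rw [mem_filter, mem_filter] at hi
      refine mem_filter.2 ⟨mem_filter.2 ⟨mem_univ _, hi.2⟩, Fin.ext ?_⟩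
      have h4 := (mem_filter.1 (hf1 i)).2
      rw [hi.1.2] at h4
      exact h4.symm
    have h4 : μ2 q + μ2 q = 4 * Sg q * (k : ℝ) ^ (γ - 1) + K q * y := by
      simp only [μ2]
      ring
    linarith

end Pool.Agent.Work.MP_db9399_ownx
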