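import Pool.Agent.Work.MP_db9399_ownx_helper62.BlkX
import Pool.Agent.Work.MP_db9399_ownx_helper62.Lidx

/-!
# MP_db9399, OWNX: colouring of the vertices of the pieces of type N (helper62)
-/

set_option autoImplicit false

namespace Pool.Agent.Work.MP_db9399_ownx

open Finset Classical
open Pool.Agent.Work.MP_db9399_all (nb mis)
open Pool.Agent.Work.MP_db9399_da
open Pool.Agent.Work.MP_db9399_da.helper62 (mem_nb nb_split card_nb_bk dec_irrel)
open Pool.Agent.Work.MP_db9399_xf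

universe u

/-- the conclusion of `lidx` for one `k` -/
def LidxP (ν0 γ : ℝ) (A k : ℕ) : Prop :=
  ∀ (I : Type) [Fintype I] (κ : Type) [Fintype κ] (Γ : SimpleGraph I)
    (L : I → Finset ℕ) (ν : I → ℝ) (a : κ → I → ℝ) (K Sg : κ → ℝ),
    (∀ i, ν0 ≤ ν i ∧ ν i ≤ 1) → (∀ i, L i ⊆ range k) →
    (∀ i, (1 - ν i ^ 2 / 200) * k ≤ ((L i).card : ℝ)) →
    (∀ i, ∑ j ∈ nb Γ i, 1 / (1 - ν j / 20) ≤ (1 - ν i / 2) * k) →
    (∀ q, 0 < K q) → (∀ q i, 0 ≤ a q i) → (∀ q i, a q i ≤ K q) →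
    (∀ q, ∑ i, a q i ≤ Sg q) →
    (∀ q, ((univ.filter (fun i => a q i ≠ 0)).card : ℝ) ≤ (k : ℝ) ^ A) →
    (∀ i, ((univ.filter (fun q => a q i ≠ 0)).card : ℝ) ≤ (k : ℝ) ^ A) →
    ∃ f : I → ℕ, (∀ i, f i ∈ L i) ∧ (∀ i j, Γ.Adj i j → f i ≠ f j) ∧
      ∀ q b, ∑ i ∈ univ.filter (fun i => f i = b), a q i ≤
        4 * Sg q * (k : ℝ) ^ (γ - 1) + K q * (k : ℝ) ^ γ

theorem lidxP (ν0 γ : ℝ) (A : ℕ) (hν0 : 0 < ν0) (hγ : 0 < γ) (hγ1 : γ < 1) (hA : 1 ≤ A) :
    ∃ k0 : ℕ, ∀ k : ℕ, k0 ≤ k → LidxP ν0 γ A k := by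
  obtain ⟨k0, h⟩ := lidx.{0} ν0 γ A hν0 hγ hγ1 hA
  exact ⟨k0, fun k hk I _ κ _ Γ L ν a K Sg => h I κ k Γ L ν a K Sg hk⟩

section
variable {V : Type u} [Fintype V] {N J : ℕ}

/-- forbidden colours of a vertex of a piece of type N -/
noncomputable def Fb (S : Fin J → Scl) (G : SimpleGraph V) (d : ℕ) (X : XD V N J)
    (t : V → V → ℕ) (c : V → ℕ) (v : V) : Finset ℕ :=
  Ft (xt G X) t v ∪ ((nb (thin G X.P) v ∩ X.P.V0).image c ∪
    if Sp S G d X v then (univ.filter (fun w => w ∈ X.P.V0 ∧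
      ∃ m, Bg S G d X v m ∧ Bg S G d X w m)).image c else ∅)

/-- Colours of the vertices of the pieces of type N. -/
structure NCol (y TT : ℝ) (s1 : Fin J → ℕ) (S : Fin J → Scl) (G : SimpleGraph V) (d : ℕ)
    (X : XD V N J) (t : V → V → ℕ) (c : V → ℕ) (Qn : Fin N → Bool → Finset ℕ)
    (P2n : Fin N → Finset ℕ) (f : V → ℕ) : Prop where
  lt : ∀ v, InT X Ty.N v → f v < d + 2
  fb : ∀ v, InT X Ty.N v → f v ∉ Fb S G d X t c v
  pal : ∀ v, InT X Ty.N v → f v ∉ P2n (X.P.pc v) ∧ ∀ i, f v ∉ Qn (X.P.pc v) i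
  adj : ∀ v w, InT X Ty.N v → InT X Ty.N w → G.Adj v w → f v ≠ f w
  cf : ∀ v w, InT X Ty.N v → InT X Ty.N w → Cf y S G d X v w → f v ≠ f w
  ld : ∀ n b, ((pV X.P n).filter (fun v => InT X Ty.N v ∧ f v = b)).card ≤ s1 (X.sc n)
  tst : ∀ m b, ((∑ w ∈ univ.filter (fun w => InT X Ty.N w ∧ f w = b ∧ Oc X w m ∧
    (av G X w m : ℝ) < y), av G X w m : ℕ) : ℝ) ≤ TT

/-- the numbers -/
structure Num (C g a y γ ν0 : ℝ) (M : ℕ) (S : Fin J → Scl) (ν : Fin J → ℝ) (s1 : Fin J → ℕ)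
    (d : ℕ) : Prop where
  hd0 : 0 < d
  hC1 : 1 ≤ C
  hg0 : 0 < g
  hg1 : g ≤ 1 / 10
  ha0 : 0 ≤ a
  hy0 : 0 < y
  hν0 : 0 < ν0
  hρ : ∀ s, 0 < (S s).ρ ∧ (S s).ρ ≤ 1
  hζ0 : ∀ s, 0 < (S s).ζ
  hθ0 : ∀ s, 0 < (S s).θ
  hν : ∀ s, ν0 ≤ ν s ∧ ν s ≤ 1
  hζρ : ∀ s, (S s).ζ ≤ (S s).ρ * g / 16
  hdρ : ∀ s, 16 / ((S s).ρ * g) ≤ d
  hπ : ∀ s, (S s).π ≤ ν s ^ 2 / 4000
  hκ : ∀ s, (S s).κ ≤ ν s ^ 2 / 8000
  hζ : ∀ s, (10 ^ 6 + 2) * (S s).ζ ≤ ν s ^ 2 / 4000
  hθs : ∀ s, s1 s * Real.sqrt (S s).θ ≤ ν s ^ 2 / 4000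
  hMθ : ∀ s, M * (Real.sqrt (S s).θ + a) ≤ ν s ^ 2 / 4000
  hfar : ∀ s, (S s).ζ * d / y * (a * (d : ℝ) ^ 2 / y) ≤ ν s ^ 2 / 4000 * d
  hθν : ∀ s, Real.sqrt (S s).θ + a ≤ ν s
  hθζ : ∀ s, (S s).θ ≤ (S s).ζ ^ 2
  hblk : ∀ s, BlkP.{u} C g (S s).ρ (ν s) (s1 s) d
  hlid : LidxP ν0 γ 3 (d + 2)
  hdC : C * (d : ℝ) ^ 2 ≤ ((d + 2 : ℕ) : ℝ) ^ 3
  hds : ∀ s, (s1 s : ℝ) * d ≤ ((d + 2 : ℕ) : ℝ) ^ 3

variable {C g z θk θ' η a : ℝ} {M : ℕ} {S : Fin J → Scl}
  {G : SimpleGraph V} {d : ℕ} {X : XD V N J}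

theorem card_Fb (hP : PcX C g z θk θ' η a M S G d X) (hd : 0 < d) {v : V}
    (hv : InT X Ty.N v) (hζ : ∀ s, 0 < (S s).ζ) (hθ : ∀ s, (S s).θ ≤ (S s).ζ ^ 2)
    (t : V → V → ℕ) (c : V → ℕ) :
    (¬ Sp S G d X v → ((Fb S G d X t c v).card : ℝ) ≤
      2 * (Real.sqrt (S (X.sc (X.P.pc v))).θ * d)) ∧
    ((Fb S G d X t c v).card : ℝ) ≤ (10 ^ 6 + 2) * ((S (X.sc (X.P.pc v))).ζ * d) := by
  have hthd := hP.thd v (Or.inl hv)
  have h1 : (Ft (xt G X) t v).card ≤ (nb (thin G X.P) v).card := by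
    unfold Ft
    refine card_image_le.trans (card_le_card fun w hw => ?_)
    rw [mem_nb] at hw ⊢
    exact hw.1
  have h2 : ((nb (thin G X.P) v ∩ X.P.V0).image c).card ≤ (nb (thin G X.P) v).card :=
    card_image_le.trans (card_le_card inter_subset_left)
  constructor
  · intro h
    have h3 : ((nb (thin G X.P) v).card : ℝ) < Real.sqrt (S (X.sc (X.P.pc v))).θ * d := by
      by_contra hcon
      exact h ⟨hv, Or.inl (not_lt.1 hcon)⟩
    have h4 : (Fb S G d X t c v).card ≤ (nb (thin G X.P) v).card + (nb (thin G X.P) v).card := by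
      unfold Fb
      rw [if_neg h, union_empty]
      exact (card_union_le _ _).trans (Nat.add_le_add h1 h2)
    have h5 : ((Fb S G d X t c v).card : ℝ) ≤ ((nb (thin G X.P) v).card : ℝ) +
        ((nb (thin G X.P) v).card : ℝ) := by exact_mod_cast h4
    linarith
  · have h3 : ((if Sp S G d X v then (univ.filter (fun w => w ∈ X.P.V0 ∧
        ∃ m, Bg S G d X v m ∧ Bg S G d X w m)).image c else ∅).card : ℝ) ≤
        10 ^ 6 * ((nb (thin G X.P) v).card : ℝ) := by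
      split_ifs
      · refine le_trans (Nat.cast_le.2 (card_image_le.trans (card_le_card ?_)))
          (card_Bg2 hP hd hv hζ hθ)
        intro w hw
        rw [mem_filter] at hw ⊢
        exact ⟨hw.1, Or.inl hw.2.1, hw.2.2⟩
      · rw [card_empty, Nat.cast_zero]
        positivity
    have h4 : ((Fb S G d X t c v).card : ℝ) ≤ ((nb (thin G X.P) v).card : ℝ) +
        (((nb (thin G X.P) v).card : ℝ) + ((if Sp S G d X v then (univ.filter (fun w => w ∈ X.P.V0 ∧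
        ∃ m, Bg S G d X v m ∧ Bg S G d X w m)).image c else ∅).card : ℝ)) := by
      unfold Fb
      exact_mod_cast (card_union_le _ _).trans (Nat.add_le_add h1
        ((card_union_le _ _).trans (Nat.add_le_add_right h2 _)))
    linarith

/-- numbers for the degrees -/
theorem num_deg {ν k d Z1 Z2 Z3 T sθ : ℝ} (hν : 0 < ν) (hν1 : ν ≤ 1) (hd : 0 < d)
    (hk : k ≤ (1 - ν) * d) (h1 : Z1 ≤ ν ^ 2 / 4000 * d)
    (h2 : Z2 ≤ ν ^ 2 / 4000 * d) (h3 : Z3 ≤ ν ^ 2 / 4000 * d) (h4 : sθ ≤ ν ^ 2 / 4000 * d)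
    (hT : T ≤ (Z1 + Z2 + Z3) + sθ) :
    k * (1 / (1 - ν / 20)) + 2 * T ≤ (1 - ν / 2) * (d + 2) := by
  have h0 : 0 < 1 - ν / 20 := by linarith
  have h5 : k * (1 / (1 - ν / 20)) ≤ (1 - 0.95 * ν) * d := by
    rw [mul_one_div, div_le_iff₀ h0]
    have h6 : (1 - ν) ≤ (1 - 0.95 * ν) * (1 - ν / 20) := by nlinarith
    calc k ≤ (1 - ν) * d := hk
      _ ≤ ((1 - 0.95 * ν) * (1 - ν / 20)) * d := mul_le_mul_of_nonneg_right h6 hd.le
      _ = _ := by ring
  have h6 : ν ^ 2 * d ≤ ν * d := by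
    apply mul_le_mul_of_nonneg_right _ hd.le
    nlinarith
  have h7 : 2 * T ≤ ν ^ 2 / 500 * d := by linarith
  have h8 : 0 < ν * d := by positivity
  have h9 : 0 < 1 - ν / 2 := by linarith
  nlinarith

theorem ncol (hP : PcX C g z θk θ' η a M S G d X) {y γ ν0 : ℝ} {ν : Fin J → ℝ} {s1 : Fin J → ℕ}
    (hn : Num.{u} C g a y γ ν0 M S ν s1 d) (t : V → V → ℕ) (c : V → ℕ)
    (Qn : Fin N → Bool → Finset ℕ) (P2n : Fin N → Finset ℕ)
    (hQ : ∀ n, X.P.ty n = Ty.N → ((P2n n).card : ℝ) ≤ 2 * (S (X.sc n)).π * d ∧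
      ∀ i, ((Qn n i).card : ℝ) ≤ 2 * (S (X.sc n)).κ * d) :
    ∃ f : V → ℕ, NCol y (4 * (a * (d : ℝ) ^ 2) * ((d + 2 : ℕ) : ℝ) ^ (γ - 1) +
      ((∑ s, s1 s + 1 : ℕ) : ℝ) * y * ((d + 2 : ℕ) : ℝ) ^ γ) s1 S G d X t c Qn P2n f := by
  have hd := hn.hd0
  have hdR : (0 : ℝ) < d := by exact_mod_cast hd
  have hν1 : ∀ s, 0 < ν s := fun s => lt_of_lt_of_le hn.hν0 (hn.hν s).1
  obtain ⟨K, bl, o1, o2, o3, o4, o5⟩ := blkX hP hd (by linarith [hn.hC1]) hn.hg0 hn.hg1 hn.ha0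
    hn.hρ hn.hθ0 hn.hζρ hn.hdρ ν s1 (fun s => ⟨hν1 s, (hn.hν s).2⟩) hn.hθν hn.hblk
  let bv : V → Fin N × Fin (d + 1) := fun v => (X.P.pc v, bl v)
  let B : Fin N × Fin (d + 1) → Finset V := fun x =>
    univ.filter (fun v => InT X Ty.N v ∧ bv v = x)
  have mB : ∀ x v, v ∈ B x ↔ InT X Ty.N v ∧ X.P.pc v = x.1 ∧ bl v = x.2 := by
    intro x v
    simp only [B, mem_filter, mem_univ, true_and, bv, Prod.ext_iff]
  have hBc : ∀ x, (B x).card ≤ s1 (X.sc x.1) := by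
    intro x
    refine (card_le_card ?_).trans (o4 x.1 x.2)
    intro v hv
    have h := (mB x v).1 hv
    exact mem_filter.2 ⟨mem_pV.2 ⟨h.1.1, h.2.1⟩, h.1, h.2.2⟩
  have sumB : ∀ x (h : V → ℝ) (α β : ℝ), 0 ≤ α → 0 ≤ β → (∀ v ∈ B x, h v ≤ α) →
      (∀ v ∈ B x, ¬ Sp S G d X v → h v ≤ β) → ∑ v ∈ B x, h v ≤ α + s1 (X.sc x.1) * β := by
    intro x h α β hα hβ h1 h2
    by_cases h3 : ∃ v ∈ B x, Sp S G d X v
    · obtain ⟨v, hv, hsp⟩ := h3
      have h4 : B x = {v} := by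
        ext w
        rw [mem_singleton]
        constructor
        · intro hw
          have e1 := (mB x v).1 hv
          have e2 := (mB x w).1 hw
          exact o5 v w e1.1 e2.1 (e1.2.1.trans e2.2.1.symm) (e1.2.2.trans e2.2.2.symm) hsp
        · rintro rfl
          exact hv
      rw [h4, sum_singleton]
      have h5 := h1 v hv
      have h6 : 0 ≤ (s1 (X.sc x.1) : ℝ) * β := by positivity
      linarith
    · push Not at h3
      have h4 : ∑ v ∈ B x, h v ≤ (B x).card * β := by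
        rw [← nsmul_eq_mul]
        exact sum_le_card_nsmul _ _ _ fun v hv => h2 v hv (h3 v hv)
      have h5 : ((B x).card : ℝ) * β ≤ s1 (X.sc x.1) * β :=
        mul_le_mul_of_nonneg_right (by exact_mod_cast hBc x) hβ
      linarith
  let Γ : SimpleGraph (Fin N × Fin (d + 1)) :=
    { Adj := fun x x' => x ≠ x' ∧ ((x.1 = x'.1 ∧ x.2.1 < K x.1 ∧ x'.2.1 < K x'.1) ∨
        ∃ v w, v ∈ B x ∧ w ∈ B x' ∧ CC y S G d X v w)
      symm := ⟨fun x x' h => ⟨h.1.symm, h.2.imp (fun h => ⟨h.1.symm, h.2.2, h.2.1⟩)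
        (fun ⟨v, w, h1, h2, h3⟩ => ⟨w, v, h2, h1, h3.symm⟩)⟩⟩
      loopless := ⟨fun x h => h.1 rfl⟩ }
  let St : Fin N → Finset ℕ := fun n =>
    if X.P.ty n = Ty.N then P2n n ∪ (Qn n false ∪ Qn n true) else ∅
  let L : Fin N × Fin (d + 1) → Finset ℕ := fun x =>
    range (d + 2) \ (St x.1 ∪ (B x).biUnion (fun v => Fb S G d X t c v))
  -- lists
  have hLc : ∀ x, (1 - ν (X.sc x.1) ^ 2 / 200) * ((d + 2 : ℕ) : ℝ) ≤ ((L x).card : ℝ) := by
    intro x
    have h1 := le_card_sdiff (St x.1 ∪ (B x).biUnion (fun v => Fb S G d X t c v)) (range (d + 2))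
    rw [card_range] at h1
    have h2 : ((d + 2 : ℕ) : ℝ) ≤ ((L x).card : ℝ) + (((St x.1).card : ℝ) +
        ∑ v ∈ B x, ((Fb S G d X t c v).card : ℝ)) := by
      have h3 : (St x.1 ∪ (B x).biUnion (fun v => Fb S G d X t c v)).card ≤
          (St x.1).card + ∑ v ∈ B x, (Fb S G d X t c v).card :=
        (card_union_le _ _).trans (Nat.add_le_add_left card_biUnion_le _)
      have h4 : d + 2 ≤ (L x).card + ((St x.1).card + ∑ v ∈ B x, (Fb S G d X t c v).card) := by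
        simp only [L]
        omega
      exact_mod_cast h4
    have hνx := hν1 (X.sc x.1)
    have h5 : ((St x.1).card : ℝ) ≤ ν (X.sc x.1) ^ 2 / 1000 * d := by
      by_cases hty : X.P.ty x.1 = Ty.N
      · have h6 := hQ x.1 hty
        have h7 : (St x.1).card ≤ (P2n x.1).card + ((Qn x.1 false).card + (Qn x.1 true).card) := by
          simp only [St, if_pos hty]
          exact (card_union_le _ _).trans (Nat.add_le_add_left (card_union_le _ _) _)
        have h8 : ((St x.1).card : ℝ) ≤ ((P2n x.1).card : ℝ) + (((Qn x.1 false).card : ℝ) +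
          ((Qn x.1 true).card : ℝ)) := by exact_mod_cast h7
        have h9 := h6.2 false
        have h10 := h6.2 true
        have h11 : (S (X.sc x.1)).π * d ≤ ν (X.sc x.1) ^ 2 / 4000 * d :=
          mul_le_mul_of_nonneg_right (hn.hπ _) hdR.le
        have h12 : (S (X.sc x.1)).κ * d ≤ ν (X.sc x.1) ^ 2 / 8000 * d :=
          mul_le_mul_of_nonneg_right (hn.hκ _) hdR.le
        linarith [h6.1]
      · simp only [St, if_neg hty]
        rw [card_empty, Nat.cast_zero]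
        positivity
    have hs0 := Real.sqrt_nonneg (S (X.sc x.1)).θ
    have hζx := hn.hζ0 (X.sc x.1)
    have h6 := sumB x (fun v => ((Fb S G d X t c v).card : ℝ))
      ((10 ^ 6 + 2) * ((S (X.sc x.1)).ζ * d)) (2 * (Real.sqrt (S (X.sc x.1)).θ * d))
      (by positivity) (by positivity)
      (by
        intro v hv
        have h7 := (mB x v).1 hv
        have h8 := (card_Fb hP hd h7.1 hn.hζ0 hn.hθζ t c).2
        rw [h7.2.1] at h8
        exact h8)
      (by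
        intro v hv hsp
        have h7 := (mB x v).1 hv
        have h8 := (card_Fb hP hd h7.1 hn.hζ0 hn.hθζ t c).1 hsp
        rw [h7.2.1] at h8
        exact h8)
    have h9 : (10 ^ 6 + 2) * (S (X.sc x.1)).ζ * d ≤ ν (X.sc x.1) ^ 2 / 4000 * d :=
      mul_le_mul_of_nonneg_right (hn.hζ _) hdR.le
    have h10 : (s1 (X.sc x.1) : ℝ) * Real.sqrt (S (X.sc x.1)).θ * d ≤
        ν (X.sc x.1) ^ 2 / 4000 * d :=
      mul_le_mul_of_nonneg_right (hn.hθs _) hdR.le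
    have h11 : 0 ≤ ν (X.sc x.1) ^ 2 * d := by positivity
    have h12 : 0 ≤ ν (X.sc x.1) ^ 2 := by positivity
    push_cast at h2 ⊢
    linarith
  -- degrees
  have hden : ∀ s, 0 < 1 - ν s / 20 := fun s => by linarith [(hn.hν s).2]
  have hden0 : ∀ s, 0 ≤ 1 / (1 - ν s / 20) := fun s => (one_div_pos.2 (hden s)).le
  have hden2 : ∀ s, 1 / (1 - ν s / 20) ≤ 2 := fun s => by
    rw [div_le_iff₀ (hden s)]
    linarith [(hn.hν s).2]
  have hdeg : ∀ x, ∑ x' ∈ nb Γ x, 1 / (1 - ν (X.sc x'.1) / 20) ≤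
      (1 - ν (X.sc x.1) / 2) * ((d + 2 : ℕ) : ℝ) := by
    intro x
    set A1 : Finset (Fin N × Fin (d + 1)) :=
      univ.filter (fun x' => x'.1 = x.1 ∧ x'.2.1 < K x.1) with hA1
    set A2 : Finset (Fin N × Fin (d + 1)) :=
      (B x).biUnion (fun v => (univ.filter (fun w => CC y S G d X v w)).image bv) with hA2
    have h1 : nb Γ x ⊆ A1 ∪ A2 := by
      intro x' hx'
      rw [mem_nb] at hx'
      rcases hx'.2 with h2 | ⟨v, w, h2, h3, h4⟩
      · refine mem_union_left _ (mem_filter.2 ⟨mem_univ _, h2.1.symm, ?_⟩)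
        rw [h2.1]
        exact h2.2.2
      · refine mem_union_right _ (mem_biUnion.2 ⟨v, h2, mem_image.2 ⟨w, ?_, ?_⟩⟩)
        · exact mem_filter.2 ⟨mem_univ _, h4⟩
        · exact (mem_filter.1 h3).2.2
    have h2 : ∑ x' ∈ nb Γ x, 1 / (1 - ν (X.sc x'.1) / 20) ≤
        ∑ x' ∈ A1, 1 / (1 - ν (X.sc x'.1) / 20) + ∑ x' ∈ A2, 1 / (1 - ν (X.sc x'.1) / 20) := by
      refine (sum_le_sum_of_subset_of_nonneg h1 fun _ _ _ => hden0 _).trans ?_
      rw [← sum_union_inter]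
      have := sum_nonneg (s := A1 ∩ A2) (f := fun x' => 1 / (1 - ν (X.sc x'.1) / 20))
        (fun _ _ => hden0 _)
      linarith
    have h3 : ∑ x' ∈ A1, 1 / (1 - ν (X.sc x'.1) / 20) ≤
        K x.1 * (1 / (1 - ν (X.sc x.1) / 20)) := by
      have h4 : ∑ x' ∈ A1, 1 / (1 - ν (X.sc x'.1) / 20) =
          ∑ x' ∈ A1, 1 / (1 - ν (X.sc x.1) / 20) :=
        sum_congr rfl fun x' hx' => by rw [(mem_filter.1 hx').2.1]
      rw [h4, sum_const, nsmul_eq_mul]
      refine mul_le_mul_of_nonneg_right (Nat.cast_le.2 ?_) (hden0 _)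
      have h5 : A1.card ≤ (range (K x.1)).card := by
        apply card_le_card_of_injOn (fun x' => x'.2.1)
        · intro x' hx'
          rw [mem_coe, mem_range]
          exact (mem_filter.1 (mem_coe.1 hx')).2.2
        · intro x' hx' x'' hx'' h
          have e1 := (mem_filter.1 (mem_coe.1 hx')).2.1
          have e2 := (mem_filter.1 (mem_coe.1 hx'')).2.1
          exact Prod.ext (e1.trans e2.symm) (Fin.ext h)
      rwa [card_range] at h5
    have h4 : ∑ x' ∈ A2, 1 / (1 - ν (X.sc x'.1) / 20) ≤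
        2 * ∑ v ∈ B x, ((univ.filter (fun w => CC y S G d X v w)).card : ℝ) := by
      have h5 : ∑ x' ∈ A2, 1 / (1 - ν (X.sc x'.1) / 20) ≤ A2.card * 2 := by
        rw [← nsmul_eq_mul]
        exact sum_le_card_nsmul _ _ _ fun _ _ => hden2 _
      have h6 : (A2.card : ℝ) ≤ ∑ v ∈ B x, ((univ.filter (fun w => CC y S G d X v w)).card : ℝ) := by
        have : A2.card ≤ ∑ v ∈ B x, (univ.filter (fun w => CC y S G d X v w)).card :=
          card_biUnion_le.trans (sum_le_sum fun _ _ => card_image_le)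
        exact_mod_cast this
      linarith
    have hs0 := Real.sqrt_nonneg (S (X.sc x.1)).θ
    have hζx := hn.hζ0 (X.sc x.1)
    have ha := hn.ha0
    have hy := hn.hy0
    have h5 := sumB x (fun v => ((univ.filter (fun w => CC y S G d X v w)).card : ℝ))
      ((10 ^ 6 + 1) * ((S (X.sc x.1)).ζ * d) +
        M * ((Real.sqrt (S (X.sc x.1)).θ + a) * d) +
        (S (X.sc x.1)).ζ * d / y * (a * (d : ℝ) ^ 2 / y)) (Real.sqrt (S (X.sc x.1)).θ * d)
      (by positivity) (by positivity)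
      (by
        intro v hv
        have h7 := (mB x v).1 hv
        have h8 := (card_CC hP hd hy ha h7.1 hn.hζ0 hn.hθ0 hn.hθζ).2
        rw [h7.2.1] at h8
        exact h8)
      (by
        intro v hv hsp
        have h7 := (mB x v).1 hv
        have h8 := (card_CC hP hd hy ha h7.1 hn.hζ0 hn.hθ0 hn.hθζ).1 hsp
        rw [h7.2.1] at h8
        exact h8)
    have h9 : (10 ^ 6 + 2) * (S (X.sc x.1)).ζ * d ≤ ν (X.sc x.1) ^ 2 / 4000 * d :=
      mul_le_mul_of_nonneg_right (hn.hζ _) hdR.le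
    have h9' : (10 ^ 6 + 1) * ((S (X.sc x.1)).ζ * d) ≤ ν (X.sc x.1) ^ 2 / 4000 * d := by
      have : 0 ≤ (S (X.sc x.1)).ζ * d := by positivity
      linarith
    have h10 : (s1 (X.sc x.1) : ℝ) * (Real.sqrt (S (X.sc x.1)).θ * d) ≤
        ν (X.sc x.1) ^ 2 / 4000 * d := by
      rw [← mul_assoc]
      exact mul_le_mul_of_nonneg_right (hn.hθs _) hdR.le
    have h11 : M * ((Real.sqrt (S (X.sc x.1)).θ + a) * d) ≤ ν (X.sc x.1) ^ 2 / 4000 * d := by
      rw [← mul_assoc]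
      exact mul_le_mul_of_nonneg_right (hn.hMθ _) hdR.le
    have h12 := num_deg (hν1 (X.sc x.1)) (hn.hν (X.sc x.1)).2 hdR (o1 x.1) h9' h11
      (hn.hfar (X.sc x.1)) h10 h5
    push_cast
    linarith
  -- tests
  let aw : Fin N → Fin N × Fin (d + 1) → ℝ := fun m x =>
    ∑ w ∈ (B x).filter (fun w => Oc X w m ∧ (av G X w m : ℝ) < y), (av G X w m : ℝ)
  have haw0 : ∀ m x, 0 ≤ aw m x := fun m x => sum_nonneg fun _ _ => Nat.cast_nonneg _
  have hs1m : ∀ s, (s1 s : ℝ) ≤ ((∑ s, s1 s + 1 : ℕ) : ℝ) := by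
    intro s
    have := single_le_sum (f := s1) (fun _ _ => Nat.zero_le _) (mem_univ s)
    exact_mod_cast (by omega : s1 s ≤ ∑ s, s1 s + 1)
  have hawK : ∀ m x, aw m x ≤ ((∑ s, s1 s + 1 : ℕ) : ℝ) * y := by
    intro m x
    have h1 : aw m x ≤ ((B x).filter (fun w => Oc X w m ∧ (av G X w m : ℝ) < y)).card * y := by
      rw [← nsmul_eq_mul]
      exact sum_le_card_nsmul _ _ _ fun w hw => (mem_filter.1 hw).2.2.le
    refine h1.trans (mul_le_mul_of_nonneg_right ?_ hn.hy0.le)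
    refine le_trans ?_ (hs1m (X.sc x.1))
    exact_mod_cast (card_le_card (filter_subset _ _)).trans (hBc x)
  have hfib : ∀ m (T : Finset (Fin N × Fin (d + 1))), ∑ x ∈ T, aw m x =
      ∑ w ∈ univ.filter (fun w => InT X Ty.N w ∧ bv w ∈ T ∧ Oc X w m ∧ (av G X w m : ℝ) < y),
        (av G X w m : ℝ) := by
    intro m T
    rw [← sum_fiberwise_of_maps_to (s := univ.filter (fun w => InT X Ty.N w ∧ bv w ∈ T ∧
      Oc X w m ∧ (av G X w m : ℝ) < y)) (t := T) (g := bv)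
      (fun w hw => (mem_filter.1 hw).2.2.1)]
    refine sum_congr rfl fun x hx => ?_
    refine sum_congr ?_ fun _ _ => rfl
    ext w
    simp only [mem_filter, mem_univ, true_and, B]
    constructor
    · rintro ⟨⟨h1, h2⟩, h3⟩
      exact ⟨⟨h1, by rw [h2]; exact hx, h3⟩, h2⟩
    · rintro ⟨⟨h1, _, h3⟩, h2⟩
      exact ⟨⟨h1, h2⟩, h3⟩
  have hawS : ∀ m, ∑ x, aw m x ≤ a * (d : ℝ) ^ 2 := by
    intro m
    rw [hfib m univ]
    have := sum_av_out hP (univ.filter (fun w => InT X Ty.N w ∧ bv w ∈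
      (univ : Finset (Fin N × Fin (d + 1))) ∧ Oc X w m ∧ (av G X w m : ℝ) < y)) m
      (fun w hw => (mem_filter.1 hw).2.2.2.1)
    push_cast at this
    exact this
  have hav0 : ∀ m x, aw m x ≠ 0 → ∃ w ∈ B x, av G X w m ≠ 0 := by
    intro m x h
    by_contra hcon
    push Not at hcon
    apply h
    refine sum_eq_zero fun w hw => ?_
    rw [hcon w (mem_filter.1 hw).1, Nat.cast_zero]
  have hsup1 : ∀ m, ((univ.filter (fun x => aw m x ≠ 0)).card : ℝ) ≤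
      ((d + 2 : ℕ) : ℝ) ^ 3 := by
    intro m
    have h1 : (univ.filter (fun x => aw m x ≠ 0)).card ≤
        (univ.filter (fun w => av G X w m ≠ 0)).card := by
      refine le_trans (card_le_card ?_) (card_image_le (f := bv))
      intro x hx
      obtain ⟨w, hw, h2⟩ := hav0 m x (mem_filter.1 hx).2
      exact mem_image.2 ⟨w, mem_filter.2 ⟨mem_univ _, h2⟩, (mem_filter.1 hw).2.2⟩
    have h2 : (univ.filter (fun w => av G X w m ≠ 0)).card ≤ ∑ w, av G X w m := by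
      rw [card_filter]
      refine sum_le_sum fun w _ => ?_
      split_ifs with h
      · exact Nat.one_le_iff_ne_zero.2 h
      · exact Nat.zero_le _
    have h3 : ∑ w, av G X w m = (pV X.P m).card * d := by
      unfold av
      rw [dbl, sum_congr rfl (g := fun _ => d) fun v _ => by rw [inter_univ, hP.reg],
        sum_const, smul_eq_mul]
    have h4 : ((pV X.P m).card : ℝ) ≤ C * d := by
      have h5 := card_TsX hP (by linarith [hn.hC1]) m
      rw [Fintype.card_subtype] at h5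
      exact h5
    have h6 : ((univ.filter (fun x => aw m x ≠ 0)).card : ℝ) ≤ (pV X.P m).card * d := by
      exact_mod_cast h1.trans (h2.trans h3.le)
    refine h6.trans (le_trans ?_ hn.hdC)
    have := mul_le_mul_of_nonneg_right h4 hdR.le
    calc ((pV X.P m).card : ℝ) * d ≤ C * d * d := this
      _ = _ := by ring
  have hsup2 : ∀ x, ((univ.filter (fun m => aw m x ≠ 0)).card : ℝ) ≤
      ((d + 2 : ℕ) : ℝ) ^ 3 := by
    intro x
    have h1 : (univ.filter (fun m => aw m x ≠ 0)).card ≤ s1 (X.sc x.1) * d := by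
      have h2 : (univ.filter (fun m => aw m x ≠ 0)) ⊆
          (B x).biUnion (fun w => univ.filter (fun m => av G X w m ≠ 0)) := by
        intro m hm
        obtain ⟨w, hw, h2⟩ := hav0 m x (mem_filter.1 hm).2
        exact mem_biUnion.2 ⟨w, hw, mem_filter.2 ⟨mem_univ _, h2⟩⟩
      have h3 : ∀ w, (univ.filter (fun m : Fin N => av G X w m ≠ 0)).card ≤ d := by
        intro w
        rw [← hP.reg w]
        have h4 : (univ.filter (fun m : Fin N => av G X w m ≠ 0)) ⊆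
            (nb G w).image X.P.pc := by
          intro m hm
          have h5 := (mem_filter.1 hm).2
          unfold av at h5
          obtain ⟨v, hv⟩ := card_pos.1 (Nat.pos_of_ne_zero h5)
          rw [mem_inter] at hv
          exact mem_image.2 ⟨v, hv.1, (mem_pV.1 hv.2).2⟩
        exact (card_le_card h4).trans card_image_le
      calc (univ.filter (fun m => aw m x ≠ 0)).card ≤
          ∑ w ∈ B x, (univ.filter (fun m : Fin N => av G X w m ≠ 0)).card :=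
            (card_le_card h2).trans card_biUnion_le
        _ ≤ (B x).card * d := by
            rw [← smul_eq_mul]
            exact sum_le_card_nsmul _ _ _ fun w _ => h3 w
        _ ≤ s1 (X.sc x.1) * d := Nat.mul_le_mul_right _ (hBc x)
    refine le_trans ?_ (hn.hds (X.sc x.1))
    exact_mod_cast h1
  have hy := hn.hy0
  obtain ⟨f, f1, f2, f3⟩ := hn.hlid (Fin N × Fin (d + 1)) (Fin N) Γ L
    (fun x => ν (X.sc x.1)) aw (fun _ => ((∑ s, s1 s + 1 : ℕ) : ℝ) * y)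
    (fun _ => a * (d : ℝ) ^ 2) (fun x => hn.hν _) (fun x => sdiff_subset) hLc hdeg
    (fun _ => by positivity) haw0 hawK hawS hsup1 hsup2
  have hbB : ∀ v, InT X Ty.N v → v ∈ B (bv v) := fun v hv =>
    mem_filter.2 ⟨mem_univ _, hv, rfl⟩
  have hfL : ∀ v, InT X Ty.N v → f (bv v) < d + 2 ∧ f (bv v) ∉ St (X.P.pc v) ∧
      f (bv v) ∉ Fb S G d X t c v := by
    intro v hv
    have h1 := mem_sdiff.1 (f1 (bv v))
    rw [mem_union, not_or] at h1
    exact ⟨mem_range.1 h1.1, h1.2.1, fun h => h1.2.2 (mem_biUnion.2 ⟨v, hbB v hv, h⟩)⟩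
  have hcc : ∀ v w, CC y S G d X v w → bv v ≠ bv w → f (bv v) ≠ f (bv w) := fun v w h hne =>
    f2 _ _ ⟨hne, Or.inr ⟨v, w, hbB v h.1, hbB w h.2.1, h⟩⟩
  have hpp : ∀ v w, InT X Ty.N v → InT X Ty.N w → X.P.pc v = X.P.pc w → bl v ≠ bl w →
      f (bv v) ≠ f (bv w) := fun v w hv hw h hne =>
    f2 _ _ ⟨fun h' => hne (congrArg Prod.snd h'), Or.inl ⟨h, o2 v hv, o2 w hw⟩⟩
  refine ⟨fun v => f (bv v), ?_, ?_, ?_, ?_, ?_, ?_, ?_⟩
  · exact fun v hv => (hfL v hv).1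
  · exact fun v hv => (hfL v hv).2.2
  · intro v hv
    have h1 := (hfL v hv).2.1
    simp only [St, if_pos hv.2, mem_union, not_or] at h1
    refine ⟨h1.1, fun i => ?_⟩
    cases i
    · exact h1.2.1
    · exact h1.2.2
  · intro v w hv hw hvw
    by_cases h : X.P.pc v = X.P.pc w
    · exact hpp v w hv hw h fun h' => o3 v w hv hw h h' hvw
    · exact hcc v w ⟨hv, hw, Or.inl ⟨hvw, fun h' => h h'.2.2.2.1⟩⟩
        fun h' => h (congrArg Prod.fst h')
  · intro v w hv hw hcf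
    refine hcc v w ⟨hv, hw, Or.inr hcf⟩ fun h' => ?_
    exact hcf.2.2.1 (o5 v w hv hw (congrArg Prod.fst h') (congrArg Prod.snd h') hcf.1).symm
  · intro n b
    rcases ((pV X.P n).filter (fun v => InT X Ty.N v ∧ f (bv v) = b)).eq_empty_or_nonempty
      with h | ⟨v0, h0⟩
    · rw [h]
      simp
    · rw [mem_filter] at h0
      refine (card_le_card ?_).trans (o4 n (bl v0))
      intro v hv
      rw [mem_filter] at hv ⊢
      refine ⟨hv.1, hv.2.1, ?_⟩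
      by_contra hne
      exact hpp v v0 hv.2.1 h0.2.1 ((mem_pV.1 hv.1).2.trans (mem_pV.1 h0.1).2.symm) hne
        (hv.2.2.trans h0.2.2.symm)
  · intro m b
    refine le_trans (le_of_eq ?_) (f3 m b)
    rw [hfib m]
    push_cast
    refine sum_congr ?_ fun _ _ => rfl
    ext w
    simp only [mem_filter, mem_univ, true_and]

end

end Pool.Agent.Work.MP_db9399_ownx
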