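import Pool.Agent.Work.MP_db9399_ownx_helper62.Ncol

/-!
# MP_db9399, OWNX: `OwnX` from the colours of the vertices of type N (helper62)
-/

set_option autoImplicit false

namespace Pool.Agent.Work.MP_db9399_ownx

open Finset Classical
open Pool.Agent.Work.MP_db9399_all (nb mis)
open Pool.Agent.Work.MP_db9399_da
open Pool.Agent.Work.MP_db9399_da.helper62 (mem_nb nb_split card_nb_bk dec_irrel)
open Pool.Agent.Work.MP_db9399_xf

universe u

section
variable {V : Type u} [Fintype V] {N J : ℕ} {C g z θk θ' η a : ℝ} {M : ℕ} {S : Fin J → Scl}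
  {G : SimpleGraph V} {d : ℕ} {X : XD V N J}

theorem av_out (hP : PcX C g z θk θ' η a M S G d X) {w : V} {m : Fin N} (hw : w ∉ X.P.V0)
    (hh : w ∉ X.Hv) (ho : Oc X w m) : (av G X w m : ℝ) ≤ a * d := by
  refine le_trans (Nat.cast_le.2 (card_le_card ?_)) (hP.out w hw hh)
  intro u hu
  rw [mem_inter] at hu
  exact mem_filter.2 ⟨hu.1, fun h => ho u hu.2 h.symm⟩

/-- numbers -/
structure Nu2 (a τ e y TT : ℝ) (M : ℕ) (S : Fin J → Scl) (s1 : Fin J → ℕ) (d : ℕ) : Prop where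
  hd0 : 0 < d
  hy0 : 0 < y
  he0 : 0 ≤ e
  hζ0 : ∀ s, 0 < (S s).ζ
  hθ0 : ∀ s, 0 < (S s).θ
  hbig : ∀ s, Real.sqrt (S s).θ ≤ (S s).ζ / 1000
  haζ : ∀ s, a < (S s).ζ / 1000
  hay : a * d < y
  hζτ : ∀ s, (S s).ζ < τ
  hMζ : ∀ s, M * (s1 s * Real.sqrt (S s).θ) ≤ (S s).ζ / 1000
  hMe : ∀ s, M * (s1 s * Real.sqrt (S s).θ) ≤ e / 800
  hζe : ∀ s, (S s).ζ ≤ e / 800
  hTζ : ∀ s, TT ≤ (S s).ζ / 1000 * d
  hTe : TT ≤ e / 800 * d
  hsθ : ∀ s, (s1 s : ℝ) ≤ (S s).θ * d

theorem ot_Sp (hP : PcX C g z θk θ' η a M S G d X) {y : ℝ} (hay : a * d < y) {w : V} {m : Fin N}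
    (hw : InT X Ty.N w) (ho : Ot y G X w m) : Sp S G d X w := by
  refine ⟨hw, Or.inr ?_⟩
  by_contra hh
  have := av_out hP hw.1 hh ho.1
  have := ho.2
  linarith

theorem bg_Sp (hP : PcX C g z θk θ' η a M S G d X) (hd : 0 < d)
    (hbig : ∀ s, Real.sqrt (S s).θ ≤ (S s).ζ / 1000) (haζ : ∀ s, a < (S s).ζ / 1000) {w : V}
    {m : Fin N} (hw : InT X Ty.N w) (hb : Bg S G d X w m) : Sp S G d X w := by
  have hdR : (0 : ℝ) < d := by exact_mod_cast hd
  refine ⟨hw, ?_⟩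
  by_cases ho : Oc X w m
  · refine Or.inr ?_
    by_contra hh
    have h1 := av_out hP hw.1 hh ho
    have h2 := hb.2
    have h3 := mul_lt_mul_of_pos_right (haζ (X.sc m)) hdR
    linarith
  · refine Or.inl ?_
    unfold Oc at ho
    push Not at ho
    obtain ⟨v, hv, h1⟩ := ho
    have h2 : X.sc (X.P.pc w) = X.sc m := by
      rw [← (mem_pV.1 hv).2]
      exact hP.scq w v hw.1 (mem_pV.1 hv).1 h1
    have h3 : (av G X w m : ℝ) ≤ ((nb (thin G X.P) w).card : ℝ) :=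
      Nat.cast_le.2 (av_le (not_pV_of_N hw (by rw [hb.1]; decide)))
    have h4 := hb.2
    rw [h2]
    have h5 := mul_le_mul_of_nonneg_right (hbig (X.sc m)) hdR.le
    linarith

/-- the vertices of type N with one colour -/
theorem npart (hP : PcX C g z θk θ' η a M S G d X) {y TT : ℝ} {s1 : Fin J → ℕ}
    {t : V → V → ℕ} {c : V → ℕ} {Qn : Fin N → Bool → Finset ℕ} {P2n : Fin N → Finset ℕ}
    {f : V → ℕ} (hf : NCol y TT s1 S G d X t c Qn P2n f) (hay : a * d < y) {m : Fin N}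
    (hm : X.P.ty m ≠ Ty.N) (b : ℕ) (U : Finset V) (hU : ∀ w ∈ U, InT X Ty.N w ∧ f w = b)
    {x : ℝ} (hx0 : 0 ≤ x) (hx : ∀ w ∈ U, (av G X w m : ℝ) ≤ x) (hTT : 0 ≤ TT) :
    ∑ w ∈ U, (av G X w m : ℝ) ≤
      2 * x + M * (s1 (X.sc m) * Real.sqrt (S (X.sc m)).θ) * d + TT := by
  have hdR : (0 : ℝ) ≤ d := Nat.cast_nonneg d
  have hsq := Real.sqrt_nonneg (S (X.sc m)).θ
  rcases (pV X.P m).eq_empty_or_nonempty with h0 | ⟨v1, hv1⟩
  · have h1 : ∑ w ∈ U, (av G X w m : ℝ) = 0 := by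
      refine sum_eq_zero fun w _ => ?_
      unfold av
      rw [h0, inter_empty, card_empty, Nat.cast_zero]
    rw [h1]
    positivity
  have hone : ∀ W : Finset V, W ⊆ U → (∀ w ∈ W, ∀ w' ∈ W, w ≠ w' → f w ≠ f w') →
      ∑ w ∈ W, (av G X w m : ℝ) ≤ x := by
    intro W hW h
    have h1 : W.card ≤ 1 := by
      rw [card_le_one]
      intro w hw w' hw'
      by_contra hne
      exact h w hw w' hw' hne ((hU w (hW hw)).2.trans (hU w' (hW hw')).2.symm)
    have h2 : ∑ w ∈ W, (av G X w m : ℝ) ≤ W.card * x := by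
      rw [← nsmul_eq_mul]
      exact sum_le_card_nsmul _ _ _ fun w hw => hx w (hW hw)
    have h3 : (W.card : ℝ) * x ≤ 1 * x :=
      mul_le_mul_of_nonneg_right (by exact_mod_cast h1) hx0
    linarith
  rw [← sum_filter_add_sum_filter_not U (fun w => X.cq w = X.cq v1),
    ← sum_filter_add_sum_filter_not (U.filter (fun w => X.cq w = X.cq v1))
      (fun w => Sp S G d X w),
    ← sum_filter_add_sum_filter_not (U.filter (fun w => ¬ X.cq w = X.cq v1))
      (fun w => y ≤ (av G X w m : ℝ))]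
  have hoc : ∀ w, ¬ X.cq w = X.cq v1 → Oc X w m := by
    intro w hw v hv h
    apply hw
    rw [h]
    exact hP.clp v v1 (mem_pV.1 hv).1 (mem_pV.1 hv1).1
      ((mem_pV.1 hv).2.trans (mem_pV.1 hv1).2.symm)
  have h1 := hone ((U.filter (fun w => X.cq w = X.cq v1)).filter (fun w => Sp S G d X w))
    ((filter_subset _ _).trans (filter_subset _ _)) (by
      intro w hw w' hw' hne
      rw [mem_filter, mem_filter] at hw hw'
      exact hf.cf w w' (hU w hw.1.1).1 (hU w' hw'.1.1).1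
        ⟨hw.2, hw'.2, hne, Or.inl (hw.1.2.trans hw'.1.2.symm)⟩)
  have h3 := hone ((U.filter (fun w => ¬ X.cq w = X.cq v1)).filter
    (fun w => y ≤ (av G X w m : ℝ))) ((filter_subset _ _).trans (filter_subset _ _)) (by
      intro w hw w' hw' hne
      rw [mem_filter, mem_filter] at hw hw'
      have e1 : Ot y G X w m := ⟨hoc w hw.1.2, hw.2⟩
      have e2 : Ot y G X w' m := ⟨hoc w' hw'.1.2, hw'.2⟩
      exact hf.cf w w' (hU w hw.1.1).1 (hU w' hw'.1.1).1
        ⟨ot_Sp hP hay (hU w hw.1.1).1 e1, ot_Sp hP hay (hU w' hw'.1.1).1 e2, hne,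
          Or.inr (Or.inr ⟨m, e1, e2⟩)⟩)
  have h4 : ∑ w ∈ (U.filter (fun w => ¬ X.cq w = X.cq v1)).filter
      (fun w => ¬ y ≤ (av G X w m : ℝ)), (av G X w m : ℝ) ≤ TT := by
    refine le_trans ?_ (hf.tst m b)
    push_cast
    refine sum_le_sum_of_subset_of_nonneg ?_ fun _ _ _ => Nat.cast_nonneg _
    intro w hw
    rw [mem_filter, mem_filter] at hw
    have := hU w hw.1.1
    exact mem_filter.2 ⟨mem_univ _, this.1, this.2, hoc w hw.1.2, not_le.1 hw.2⟩
  have h2 : ∑ w ∈ (U.filter (fun w => X.cq w = X.cq v1)).filter (fun w => ¬ Sp S G d X w),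
      (av G X w m : ℝ) ≤ M * (s1 (X.sc m) * Real.sqrt (S (X.sc m)).θ) * d := by
    set W := (U.filter (fun w => X.cq w = X.cq v1)).filter (fun w => ¬ Sp S G d X w) with hW
    have hWm : ∀ w ∈ W, InT X Ty.N w ∧ f w = b ∧ X.cq w = X.cq v1 ∧ ¬ Sp S G d X w := by
      intro w hw
      rw [hW, mem_filter, mem_filter] at hw
      exact ⟨(hU w hw.1.1).1, (hU w hw.1.1).2, hw.1.2, hw.2⟩
    have hv1' := mem_pV.1 hv1
    have hsc : ∀ w, w ∉ X.P.V0 → X.cq w = X.cq v1 → X.sc (X.P.pc w) = X.sc m := by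
      intro w hw h
      rw [← hv1'.2]
      exact hP.scq w v1 hw hv1'.1 h
    have e1 : (W.card : ℝ) ≤ M * s1 (X.sc m) := by
      refine card_clu hP hv1'.1 W (fun w hw => ⟨(hWm w hw).1.1, (hWm w hw).2.2.1⟩)
        (Nat.cast_nonneg _) ?_
      rintro n ⟨w, e2, e3, e4⟩
      have e5 : X.sc n = X.sc m := by
        rw [← e3]
        exact hsc w e2 e4
      rw [← e5]
      refine Nat.cast_le.2 ((card_le_card ?_).trans (hf.ld n b))
      intro u hu
      rw [mem_filter] at hu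
      exact mem_filter.2 ⟨hu.2, (hWm u hu.1).1, (hWm u hu.1).2.1⟩
    have e2 : ∑ w ∈ W, (av G X w m : ℝ) ≤ W.card * (Real.sqrt (S (X.sc m)).θ * d) := by
      rw [← nsmul_eq_mul]
      refine sum_le_card_nsmul _ _ _ fun w hw => ?_
      have e3 := hWm w hw
      have e4 : (av G X w m : ℝ) ≤ ((nb (thin G X.P) w).card : ℝ) :=
        Nat.cast_le.2 (av_le (not_pV_of_N e3.1 hm))
      refine e4.trans ?_
      by_contra hcon
      apply e3.2.2.2
      refine ⟨e3.1, Or.inl ?_⟩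
      rw [hsc w e3.1.1 e3.2.2.1]
      exact (not_le.1 hcon).le
    refine e2.trans ?_
    have e3 : (W.card : ℝ) * (Real.sqrt (S (X.sc m)).θ * d) ≤
        (M * s1 (X.sc m)) * (Real.sqrt (S (X.sc m)).θ * d) :=
      mul_le_mul_of_nonneg_right e1 (by positivity)
    refine e3.trans (le_of_eq ?_)
    ring
  linarith

theorem own_of (hP : PcX C g z θk θ' η a M S G d X) {τ e1 e y TT : ℝ}
    {s1 : Fin J → ℕ} {t : V → V → ℕ} {c : V → ℕ} {Qn : Fin N → Bool → Finset ℕ}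
    {P2n : Fin N → Finset ℕ} {f : V → ℕ} (hR : OwX τ e1 (1 / 125) S G d X t c (fun v => v ∈ X.P.V0))
    (hf : NCol y TT s1 S G d X t c Qn P2n f) (hn : Nu2 a τ e y TT M S s1 d)
    (he : e1 ≤ e / 2) (hTT : 0 ≤ TT) :
    OwnX τ e S G d X t c Qn P2n (fun v => if InT X Ty.N v then f v else c v) := by
  have hd := hn.hd0
  have hdR : (0 : ℝ) < d := by exact_mod_cast hd
  set cN : V → ℕ := fun v => if InT X Ty.N v then f v else c v with hcN
  have cNN : ∀ v, InT X Ty.N v → cN v = f v := fun v h => by simp only [hcN, if_pos h]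
  have cN0 : ∀ v, v ∈ X.P.V0 → cN v = c v := fun v h => by
    simp only [hcN, if_neg (fun h' : InT X Ty.N v => h'.1 h)]
  have hfb : ∀ v, InT X Ty.N v → f v ∉ Ft (xt G X) t v ∧
      (∀ w ∈ X.P.V0, G.Adj v w → c w ≠ f v) ∧
      ∀ w ∈ X.P.V0, ∀ m, Bg S G d X v m → Bg S G d X w m → c w ≠ f v := by
    intro v hv
    have h1 := hf.fb v hv
    unfold Fb at h1
    rw [mem_union, mem_union, not_or, not_or] at h1
    refine ⟨h1.1, fun w hw hvw h => h1.2.1 ?_, fun w hw m h2 h3 h => h1.2.2 ?_⟩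
    · refine mem_image.2 ⟨w, mem_inter.2 ⟨(mem_nb _ _ _).2 ⟨hvw, ?_⟩, hw⟩, h⟩
      exact fun h' => h'.2.2.1 hw
    · rw [if_pos (bg_Sp hP hd hn.hbig hn.haζ hv h2)]
      exact mem_image.2 ⟨w, mem_filter.2 ⟨mem_univ _, hw, m, h2, h3⟩, h⟩
  -- vertices of type N are not big at pieces of type K
  have hthd : ∀ w m, InT X Ty.N w → X.P.ty m ≠ Ty.N → (av G X w m : ℝ) ≤
      (S (X.sc (X.P.pc w))).ζ * d := fun w m hw hm =>
    (Nat.cast_le.2 (av_le (not_pV_of_N hw hm))).trans (hP.thd w (Or.inl hw))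
  have hsplit : ∀ (m : Fin N) (b : ℕ) (q : ℝ),
      ((∑ w ∈ univ.filter (fun w => Owd X w ∧ cN w = b ∧ ((nb G w ∩ pV X.P m).card : ℝ) < q),
        (nb G w ∩ pV X.P m).card : ℕ) : ℝ) ≤
      ((∑ w ∈ univ.filter (fun w => w ∈ X.P.V0 ∧ c w = b ∧
        ((nb G w ∩ pV X.P m).card : ℝ) < q), (nb G w ∩ pV X.P m).card : ℕ) : ℝ) +
      ∑ w ∈ univ.filter (fun w => InT X Ty.N w ∧ f w = b ∧ (av G X w m : ℝ) < q),
        (av G X w m : ℝ) := by
    intro m b q
    push_cast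
    have h1 : univ.filter (fun w => Owd X w ∧ cN w = b ∧ ((nb G w ∩ pV X.P m).card : ℝ) < q) ⊆
        univ.filter (fun w => w ∈ X.P.V0 ∧ c w = b ∧ ((nb G w ∩ pV X.P m).card : ℝ) < q) ∪
        univ.filter (fun w => InT X Ty.N w ∧ f w = b ∧ (av G X w m : ℝ) < q) := by
      intro w hw
      obtain ⟨h2, h3, h4⟩ := (mem_filter.1 hw).2
      rcases h2 with h2 | h2
      · rw [cN0 w h2] at h3
        exact mem_union_left _ (mem_filter.2 ⟨mem_univ _, h2, h3, h4⟩)
      · rw [cNN w h2] at h3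
        exact mem_union_right _ (mem_filter.2 ⟨mem_univ _, h2, h3, h4⟩)
    refine (sum_le_sum_of_subset_of_nonneg h1 fun _ _ _ => Nat.cast_nonneg _).trans ?_
    have h2 := sum_union_inter (s₁ := univ.filter (fun w => w ∈ X.P.V0 ∧ c w = b ∧
        ((nb G w ∩ pV X.P m).card : ℝ) < q))
      (s₂ := univ.filter (fun w => InT X Ty.N w ∧ f w = b ∧ (av G X w m : ℝ) < q))
      (f := fun w => ((nb G w ∩ pV X.P m).card : ℝ))
    have h3 := sum_nonneg (s := univ.filter (fun w => w ∈ X.P.V0 ∧ c w = b ∧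
        ((nb G w ∩ pV X.P m).card : ℝ) < q) ∩
      univ.filter (fun w => InT X Ty.N w ∧ f w = b ∧ (av G X w m : ℝ) < q))
      (f := fun w => ((nb G w ∩ pV X.P m).card : ℝ)) (fun _ _ => Nat.cast_nonneg _)
    unfold av at h2 h3 ⊢
    linarith
  refine
    { clt := ?_
      cc := ?_
      ct := ?_
      big := ?_
      sml := ?_
      dif := ?_
      non := ?_
      eq := cN0
      nP := ?_
      ldN := ?_ }
  · rintro v (hv | hv)
    · rw [cN0 v hv]
      exact hR.clt v hv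
    · rw [cNN v hv]
      exact hf.lt v hv
  · rintro v w (hv | hv) (hw | hw) hvw
    · rw [cN0 v hv, cN0 w hw]
      exact hR.cc v w hv hw hvw
    · rw [cN0 v hv, cNN w hw]
      exact (hfb w hw).2.1 v hv hvw.symm
    · rw [cNN v hv, cN0 w hw]
      exact fun h => (hfb v hv).2.1 w hw hvw h.symm
    · rw [cNN v hv, cNN w hw]
      exact hf.adj v w hv hw hvw
  · rintro v (hv | hv)
    · rw [cN0 v hv]
      exact hR.ct v hv
    · rw [cNN v hv]
      exact (hfb v hv).1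
  · intro n hn' w w' hw hw' hne h1 h2
    have b1 : Bg S G d X w n := ⟨hn', h1⟩
    have b2 : Bg S G d X w' n := ⟨hn', h2⟩
    rcases hw with hw | hw <;> rcases hw' with hw' | hw'
    · rw [cN0 w hw, cN0 w' hw']
      exact hR.big n hn' w w' hw hw' hne h1 h2
    · rw [cN0 w hw, cNN w' hw']
      exact (hfb w' hw').2.2 w hw n b2 b1
    · rw [cNN w hw, cN0 w' hw']
      exact fun h => (hfb w hw).2.2 w' hw' n b1 b2 h.symm
    · rw [cNN w hw, cNN w' hw']
      exact hf.cf w w' hw hw' ⟨bg_Sp hP hd hn.hbig hn.haζ hw b1,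
        bg_Sp hP hd hn.hbig hn.haζ hw' b2, hne, Or.inr (Or.inl ⟨n, b1, b2⟩)⟩
  · intro n hn' b
    have hζ := hn.hζ0 (X.sc n)
    refine (hsplit n b _).trans ?_
    have h1 : ((∑ w ∈ univ.filter (fun w => w ∈ X.P.V0 ∧ c w = b ∧
        ((nb G w ∩ pV X.P n).card : ℝ) < (S (X.sc n)).ζ / 1000 * d),
        (nb G w ∩ pV X.P n).card : ℕ) : ℝ) ≤ 1 / 125 * (S (X.sc n)).ζ * d := by
      convert hR.sml n hn' b
    have h2 := npart hP hf hn.hay (m := n) (by rw [hn']; decide) b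
      (univ.filter (fun w => InT X Ty.N w ∧ f w = b ∧
        (av G X w n : ℝ) < (S (X.sc n)).ζ / 1000 * d))
      (fun w hw => ⟨(mem_filter.1 hw).2.1, (mem_filter.1 hw).2.2.1⟩)
      (x := (S (X.sc n)).ζ / 1000 * d) (by positivity)
      (fun w hw => (mem_filter.1 hw).2.2.2.le) hTT
    have h3 := mul_le_mul_of_nonneg_right (hn.hMζ (X.sc n)) hdR.le
    have h4 := hn.hTζ (X.sc n)
    have h5 : 0 < (S (X.sc n)).ζ * d := by positivity
    linarith
  · intro n hn' w w' hw hw' hne h1 h2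
    have h3 : ∀ u, Owd X u → τ * d ≤ ((nb G u ∩ pV X.P n).card : ℝ) → u ∈ X.P.V0 := by
      rintro u (hu | hu) h
      · exact hu
      · exfalso
        have h4 := hthd u n hu (by rw [hn']; decide)
        have h5 := mul_lt_mul_of_pos_right (hn.hζτ (X.sc (X.P.pc u))) hdR
        unfold av at h4
        linarith
    have h4 := h3 w hw h1
    have h5 := h3 w' hw' h2
    rw [cN0 w h4, cN0 w' h5]
    exact hR.dif n hn' w w' h4 h5 hne h1 h2
  · intro n hn' b
    refine (hsplit n b _).trans ?_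
    have h1 : ((∑ w ∈ univ.filter (fun w => w ∈ X.P.V0 ∧ c w = b ∧
        ((nb G w ∩ pV X.P n).card : ℝ) < τ * d),
        (nb G w ∩ pV X.P n).card : ℕ) : ℝ) ≤ e1 * d := by
      convert hR.non n hn' b
    have he0 := hn.he0
    have h2 := npart hP hf hn.hay (m := n) (by rw [hn']; decide) b
      (univ.filter (fun w => InT X Ty.N w ∧ f w = b ∧ (av G X w n : ℝ) < τ * d))
      (fun w hw => ⟨(mem_filter.1 hw).2.1, (mem_filter.1 hw).2.2.1⟩)
      (x := e / 800 * d) (by positivity)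
      (fun w hw => (hthd w n (mem_filter.1 hw).2.1 (by rw [hn']; decide)).trans
        (mul_le_mul_of_nonneg_right (hn.hζe _) hdR.le)) hTT
    have h3 := mul_le_mul_of_nonneg_right (hn.hMe (X.sc n)) hdR.le
    have h4 := hn.hTe
    have h5 := mul_le_mul_of_nonneg_right he hdR.le
    have h6 : 0 ≤ e * d := by positivity
    linarith
  · intro n hn' v hv
    have h1 := mem_pV.1 hv
    have h2 : InT X Ty.N v := ⟨h1.1, by rw [h1.2]; exact hn'⟩
    rw [cNN v h2]
    have h3 := hf.pal v h2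
    rw [h1.2] at h3
    exact h3
  · intro n hn' b
    refine le_trans (Nat.cast_le.2 (le_trans (card_le_card ?_) (hf.ld n b))) (hn.hsθ (X.sc n))
    intro v hv
    rw [mem_filter] at hv ⊢
    have h1 := mem_pV.1 hv.1
    have h2 : InT X Ty.N v := ⟨h1.1, by rw [h1.2]; exact hn'⟩
    rw [cNN v h2] at hv
    exact ⟨hv.1, h2, hv.2⟩

end

end Pool.Agent.Work.MP_db9399_ownx
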