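import Pool.Agent.Work.MP_db9399_ownx_helper62.Own

/-!
# MP_db9399, block OWNX (helper62): own colours of the pieces of type N
-/

set_option autoImplicit false

namespace Pool.Agent.Work.MP_db9399_ownx

open Finset Classical
open Pool.Agent.Work.MP_db9399_all (nb mis)
open Pool.Agent.Work.MP_db9399_da
open Pool.Agent.Work.MP_db9399_xf

universe u

theorem exists_lb {J : ℕ} (f : Fin J → ℝ) (hf : ∀ s, 0 < f s) : ∃ x : ℝ, 0 < x ∧ ∀ s, x ≤ f s := by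
  have h0 : ∀ s, 0 ≤ 1 / f s := fun s => (one_div_pos.2 (hf s)).le
  have h1 : 0 ≤ ∑ s, 1 / f s := sum_nonneg fun s _ => h0 s
  refine ⟨1 / (∑ s, 1 / f s + 1), by positivity, fun s => ?_⟩
  have h2 := single_le_sum (fun s _ => h0 s) (mem_univ s)
  have h3 : 1 / f s ≤ ∑ s, 1 / f s + 1 := by linarith
  rw [div_le_iff₀ (by positivity)]
  rw [div_le_iff₀ (hf s)] at h3
  linarith

/-- powers -/
theorem pows {c' : ℝ} {γ : ℝ} (hγ0 : 0 < γ) (hγ : γ ≤ c' / 8) (hγ1 : γ ≤ 1 / 2)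
    (_hc : 0 < c') {d : ℕ} (hd : 2 ≤ d) {s : ℝ} (hs : 0 ≤ s) :
    (d : ℝ) ^ (-c') ≤ (d : ℝ) ^ (-(c' / 8)) ∧
    (d : ℝ) ^ (-c') * d < (d : ℝ) ^ (1 - c' / 4) ∧
    (∀ ζ : ℝ, ζ * d / (d : ℝ) ^ (1 - c' / 4) *
      ((d : ℝ) ^ (-c') * (d : ℝ) ^ 2 / (d : ℝ) ^ (1 - c' / 4)) =
      ζ * (d : ℝ) ^ (-(c' / 2)) * d) ∧ (d : ℝ) ^ (-(c' / 2)) ≤ (d : ℝ) ^ (-(c' / 8)) ∧
    4 * ((d : ℝ) ^ (-c') * (d : ℝ) ^ 2) * ((d + 2 : ℕ) : ℝ) ^ (γ - 1) +
      s * (d : ℝ) ^ (1 - c' / 4) * ((d + 2 : ℕ) : ℝ) ^ γ ≤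
      (4 + 3 * s) * (d : ℝ) ^ (-(c' / 8)) * d := by
  have hdR : (2 : ℝ) ≤ d := by exact_mod_cast hd
  have hd0 : (0 : ℝ) < d := by linarith
  have hd1 : (1 : ℝ) ≤ d := by linarith
  have hd1' : (1 : ℝ) < d := by linarith
  have mono : ∀ {a b : ℝ}, a ≤ b → (d : ℝ) ^ a ≤ (d : ℝ) ^ b := fun h =>
    Real.rpow_le_rpow_of_exponent_le hd1 h
  have e1 : (d : ℝ) ^ (-c') * (d : ℝ) ^ 2 = (d : ℝ) ^ (2 - c') := by
    rw [← Real.rpow_natCast, ← Real.rpow_add hd0]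
    congr 1
    push_cast
    ring
  refine ⟨mono (by linarith), ?_, ?_, mono (by linarith), ?_⟩
  · have h1 : (d : ℝ) ^ (-c') * d = (d : ℝ) ^ (1 - c') := by
      nth_rewrite 2 [← Real.rpow_one (d : ℝ)]
      rw [← Real.rpow_add hd0]
      congr 1
      ring
    rw [h1]
    exact Real.rpow_lt_rpow_of_exponent_lt hd1' (by linarith)
  · intro ζ
    rw [e1]
    have h1 : (d : ℝ) ^ (2 - c') / (d : ℝ) ^ (1 - c' / 4) = (d : ℝ) ^ (1 - 3 * c' / 4) := by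
      rw [← Real.rpow_sub hd0]
      congr 1
      ring
    rw [h1, mul_div_assoc]
    have h2 : (d : ℝ) / (d : ℝ) ^ (1 - c' / 4) = (d : ℝ) ^ (c' / 4) := by
      nth_rewrite 1 [← Real.rpow_one (d : ℝ)]
      rw [← Real.rpow_sub hd0]
      congr 1
      ring
    rw [h2, mul_assoc, ← Real.rpow_add hd0]
    have h3 : (d : ℝ) ^ (-(c' / 2)) * d = (d : ℝ) ^ (1 - c' / 2) := by
      nth_rewrite 2 [← Real.rpow_one (d : ℝ)]
      rw [← Real.rpow_add hd0]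
      congr 1
      ring
    rw [mul_assoc, h3]
    congr 2
    ring
  · have hw : 0 ≤ (d : ℝ) ^ (-(c' / 8)) := Real.rpow_nonneg hd0.le _
    have hk : (d : ℝ) ≤ ((d + 2 : ℕ) : ℝ) := by
      push_cast
      linarith
    have h1 : 4 * ((d : ℝ) ^ (-c') * (d : ℝ) ^ 2) * ((d + 2 : ℕ) : ℝ) ^ (γ - 1) ≤
        4 * (d : ℝ) ^ (-(c' / 8)) * d := by
      have h2 : ((d + 2 : ℕ) : ℝ) ^ (γ - 1) ≤ (d : ℝ) ^ (γ - 1) :=
        Real.rpow_le_rpow_of_nonpos hd0 hk (by linarith)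
      have h3 : ((d : ℝ) ^ (-c') * (d : ℝ) ^ 2) * (d : ℝ) ^ (γ - 1) = (d : ℝ) ^ (γ - c') * d := by
        rw [e1, ← Real.rpow_add hd0]
        nth_rewrite 3 [← Real.rpow_one (d : ℝ)]
        rw [← Real.rpow_add hd0]
        congr 1
        ring
      have h4 : (d : ℝ) ^ (γ - c') ≤ (d : ℝ) ^ (-(c' / 8)) := mono (by linarith)
      calc 4 * ((d : ℝ) ^ (-c') * (d : ℝ) ^ 2) * ((d + 2 : ℕ) : ℝ) ^ (γ - 1) ≤
          4 * ((d : ℝ) ^ (-c') * (d : ℝ) ^ 2) * (d : ℝ) ^ (γ - 1) :=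
            mul_le_mul_of_nonneg_left h2 (by positivity)
        _ = 4 * ((d : ℝ) ^ (γ - c') * d) := by rw [mul_assoc, h3]
        _ ≤ 4 * ((d : ℝ) ^ (-(c' / 8)) * d) :=
            mul_le_mul_of_nonneg_left (mul_le_mul_of_nonneg_right h4 hd0.le) (by norm_num)
        _ = _ := by ring
    have h5 : s * (d : ℝ) ^ (1 - c' / 4) * ((d + 2 : ℕ) : ℝ) ^ γ ≤
        3 * s * (d : ℝ) ^ (-(c' / 8)) * d := by
      have h6 : ((d + 2 : ℕ) : ℝ) ^ γ ≤ 3 * (d : ℝ) ^ γ := by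
        have h7 : ((d + 2 : ℕ) : ℝ) ≤ 3 * d := by
          push_cast
          linarith
        have h8 : ((d + 2 : ℕ) : ℝ) ^ γ ≤ (3 * (d : ℝ)) ^ γ :=
          Real.rpow_le_rpow (Nat.cast_nonneg _) h7 hγ0.le
        have h9 : (3 * (d : ℝ)) ^ γ = 3 ^ γ * (d : ℝ) ^ γ :=
          Real.mul_rpow (by norm_num) hd0.le
        have h10 : (3 : ℝ) ^ γ ≤ 3 ^ (1 : ℝ) :=
          Real.rpow_le_rpow_of_exponent_le (by norm_num) (by linarith)
        rw [Real.rpow_one] at h10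
        calc ((d + 2 : ℕ) : ℝ) ^ γ ≤ 3 ^ γ * (d : ℝ) ^ γ := h8.trans h9.le
          _ ≤ 3 * (d : ℝ) ^ γ := mul_le_mul_of_nonneg_right h10 (Real.rpow_nonneg hd0.le _)
      have h7 : (d : ℝ) ^ (1 - c' / 4) * (d : ℝ) ^ γ = (d : ℝ) ^ (γ - c' / 4) * d := by
        rw [← Real.rpow_add hd0]
        nth_rewrite 3 [← Real.rpow_one (d : ℝ)]
        rw [← Real.rpow_add hd0]
        congr 1
        ring
      have h8 : (d : ℝ) ^ (γ - c' / 4) ≤ (d : ℝ) ^ (-(c' / 8)) := mono (by linarith)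
      calc s * (d : ℝ) ^ (1 - c' / 4) * ((d + 2 : ℕ) : ℝ) ^ γ ≤
          s * (d : ℝ) ^ (1 - c' / 4) * (3 * (d : ℝ) ^ γ) :=
            mul_le_mul_of_nonneg_left h6 (mul_nonneg hs (Real.rpow_nonneg hd0.le _))
        _ = 3 * s * ((d : ℝ) ^ (1 - c' / 4) * (d : ℝ) ^ γ) := by ring
        _ = 3 * s * ((d : ℝ) ^ (γ - c' / 4) * d) := by rw [h7]
        _ ≤ 3 * s * ((d : ℝ) ^ (-(c' / 8)) * d) :=
            mul_le_mul_of_nonneg_left (mul_le_mul_of_nonneg_right h8 hd0.le) (by positivity)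
        _ = _ := by ring
    linarith

/-- The core of OWNX: input own colours of `V0` and the sizes of the palettes of the pieces of type
N. -/
def Stmt_OWNC : Prop :=
  ∀ (C g τ e : ℝ) (M : ℕ), 1 ≤ C → 0 < g → g ≤ 1 / 10 → 0 < τ → 64 * τ ≤ e → ∃ T : Thr, T.Pos ∧
    ∀ (J : ℕ) (S : Fin J → Scl) (c' : ℝ), (∀ s, Adm T (S s)) → 0 < c' → ∃ d0 : ℕ,
    ∀ {V : Type u} [Fintype V] {N : ℕ} (G : SimpleGraph V) (d : ℕ) (X : XD V N J)
      (t : V → V → ℕ) (c : V → ℕ) (Qn : Fin N → Bool → Finset ℕ) (P2n : Fin N → Finset ℕ)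
      (z θk θ' η : ℝ), d0 ≤ d → PcX C g z θk θ' η ((d : ℝ) ^ (-c')) M S G d X →
      OwX τ (e / 4) (1 / 125) S G d X t c (fun v => v ∈ X.P.V0) →
      (∀ n, X.P.ty n = Ty.N → ((P2n n).card : ℝ) ≤ 2 * (S (X.sc n)).π * d ∧
        ∀ i, ((Qn n i).card : ℝ) ≤ 2 * (S (X.sc n)).κ * d) →
      ∃ cN : V → ℕ, OwnX τ (e / 2) S G d X t c Qn P2n cN

/-- **OWNX**, core -/
theorem stmt_OWNC : Stmt_OWNC.{u} := by
  intro C g τ e M hC hg hg1 hτ hτe
  have he : 0 < e := by linarith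
  have hbl : ∀ ρ : ℝ, ∃ (ν : ℝ) (s1 d0 : ℕ), 0 < ν ∧ ν ≤ 1 ∧ 0 < s1 ∧
      (0 < ρ → ∀ d, d0 ≤ d → BlkP.{u} C g ρ ν s1 d) := by
    intro ρ
    by_cases hρ : 0 < ρ
    · obtain ⟨ν, s1, d0, h1, h2, h3, h4⟩ := blocks.{u} C g ρ hg hρ
      exact ⟨ν, s1, d0, h1, h2, h3, fun _ d hd Y _ H Sp => h4 H d Sp hd⟩
    · exact ⟨1, 1, 0, one_pos, le_rfl, one_pos, fun h => absurd h hρ⟩
  choose ν s1 dB hν0 hν1 hs1 hB using hbl
  have hM : (0 : ℝ) ≤ M := Nat.cast_nonneg M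
  let Bθ : ℝ → ℝ → ℝ := fun ρ ζ => min (min (ζ / 1000) (ν ρ / 2))
    (min (ν ρ ^ 2 / (8000 * (M + 1) * (s1 ρ + 1)))
      (min (ζ / (1000 * (M + 1) * (s1 ρ + 1))) (e / (1600 * (M + 1) * (s1 ρ + 1)))))
  have hBθ : ∀ ρ ζ, 0 < ζ → 0 < Bθ ρ ζ := by
    intro ρ ζ hζ
    have h1 := hν0 ρ
    have h2 : (0 : ℝ) ≤ s1 ρ := Nat.cast_nonneg _
    exact lt_min (lt_min (by positivity) (by positivity))
      (lt_min (by positivity) (lt_min (by positivity) (by positivity)))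
  let T : Thr :=
    { π0 := fun ρ => ν ρ ^ 2 / 4000
      κ0 := fun ρ _ => ν ρ ^ 2 / 8000
      ε0 := fun _ _ _ => 1
      ζ0 := fun ρ _ _ _ => min (min (ν ρ ^ 2 / (4000 * (10 ^ 6 + 2))) (ρ * g / 16))
        (min (τ / 2) (min (e / 1600) 1))
      θ0 := fun ρ _ _ _ ζ => Bθ ρ ζ ^ 2 }
  have hT : T.Pos := by
    refine ⟨fun ρ _ => ?_, fun ρ _ _ _ => ?_, fun _ _ _ _ _ _ => one_pos,
      fun ρ _ _ _ hρ _ _ _ => ?_, fun ρ _ _ _ ζ _ _ _ _ hζ => ?_⟩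
    · have := hν0 ρ
      simp only [T]
      positivity
    · have := hν0 ρ
      simp only [T]
      positivity
    · have := hν0 ρ
      exact lt_min (lt_min (by positivity) (by positivity))
        (lt_min (by positivity) (lt_min (by positivity) one_pos))
    · exact pow_pos (hBθ ρ ζ hζ) 2
  refine ⟨T, hT, ?_⟩
  intro J S c' hA hc'
  obtain ⟨ν0, hν00, hν0s⟩ := exists_lb (fun s : Fin J => ν (S s).ρ) (fun s => hν0 _)
  obtain ⟨γ, hγ0, hγ, hγ1⟩ : ∃ γ : ℝ, 0 < γ ∧ γ ≤ c' / 8 ∧ γ ≤ 1 / 2 :=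
    ⟨min (c' / 8) (1 / 2), lt_min (by linarith) (by norm_num), min_le_left _ _,
      min_le_right _ _⟩
  obtain ⟨k0, hk0⟩ := lidxP ν0 γ 3 hν00 hγ0 (by linarith) (by norm_num)
  set sm : ℝ := ((∑ s, s1 (S s).ρ + 1 : ℕ) : ℝ) with hsm
  have hsm0 : 0 ≤ sm := Nat.cast_nonneg _
  have hw : Filter.Tendsto (fun d : ℕ => (d : ℝ) ^ (-(c' / 8))) Filter.atTop (nhds 0) :=
    (tendsto_rpow_neg_atTop (by linarith)).comp tendsto_natCast_atTop_atTop
  let δ : Fin J → ℝ := fun s => min (ν (S s).ρ ^ 2 / (8000 * (M + 1)))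
    (min ((S s).ζ / (1001 * (4 + 3 * sm))) (e / (1600 * (4 + 3 * sm))))
  have hδ : ∀ s, 0 < δ s := by
    intro s
    have h1 := hν0 (S s).ρ
    have h2 := (hA s).ζ.1
    exact lt_min (by positivity) (lt_min (by positivity) (by positivity))
  have hev : ∀ᶠ d : ℕ in Filter.atTop, (d : ℝ) ^ (-(c' / 8)) < e / (1600 * (4 + 3 * sm)) ∧
      ∀ s : Fin J, (d : ℝ) ^ (-(c' / 8)) < δ s ∧
      dB (S s).ρ ≤ d ∧ ⌈16 / ((S s).ρ * g)⌉₊ ≤ d ∧ ⌈(s1 (S s).ρ : ℝ) / (S s).θ⌉₊ ≤ d ∧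
      s1 (S s).ρ ≤ d := by
    refine (hw.eventually_lt_const (by positivity)).and
      (Filter.eventually_all.2 fun s => ?_)
    refine ((hw.eventually_lt_const (hδ s)).and ?_)
    exact (Filter.eventually_ge_atTop _).and ((Filter.eventually_ge_atTop _).and
      ((Filter.eventually_ge_atTop _).and (Filter.eventually_ge_atTop _)))
  obtain ⟨d1, hd1⟩ := Filter.eventually_atTop.1 hev
  refine ⟨d1 + k0 + ⌈C⌉₊ + 2, ?_⟩
  intro V _ N G d X t c Qn P2n z θk θ' η hd hP hR hS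
  obtain ⟨hwe, hds⟩ := hd1 d (by omega)
  have hd2 : 2 ≤ d := by omega
  have hd2R : (2 : ℝ) ≤ d := by exact_mod_cast hd2
  have hdR : (0 : ℝ) < d := by linarith
  obtain ⟨p1, p2, p3, p4, p5⟩ := pows hγ0 hγ hγ1 hc' hd2 hsm0
  set w : ℝ := (d : ℝ) ^ (-(c' / 8)) with hwdef
  set a : ℝ := (d : ℝ) ^ (-c') with hadef
  set y : ℝ := (d : ℝ) ^ (1 - c' / 4) with hydef
  have ha0 : 0 ≤ a := Real.rpow_nonneg hdR.le _
  have hw0 : 0 ≤ w := Real.rpow_nonneg hdR.le _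
  have hy0 : 0 < y := Real.rpow_pos_of_pos hdR _
  -- facts about the scales
  have hs1R : ∀ s : Fin J, (0 : ℝ) ≤ s1 (S s).ρ := fun s => Nat.cast_nonneg _
  have q1 : ∀ s, 0 < (S s).ρ ∧ (S s).ρ ≤ 1 := fun s => (hA s).ρ
  have q2 : ∀ s, 0 < (S s).ζ := fun s => (hA s).ζ.1
  have q3 : ∀ s, 0 < (S s).θ := fun s => (hA s).θ.1
  have q4 : ∀ s, (S s).ζ ≤ ν (S s).ρ ^ 2 / (4000 * (10 ^ 6 + 2)) ∧
      (S s).ζ ≤ (S s).ρ * g / 16 ∧ (S s).ζ ≤ τ / 2 ∧ (S s).ζ ≤ e / 1600 ∧ (S s).ζ ≤ 1 := by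
    intro s
    have := (hA s).ζ.2
    simp only [T, le_min_iff] at this
    exact ⟨this.1.1, this.1.2, this.2.1, this.2.2.1, this.2.2.2⟩
  have q5 : ∀ s, Real.sqrt (S s).θ ≤ Bθ (S s).ρ (S s).ζ := by
    intro s
    have h1 : (S s).θ ≤ Bθ (S s).ρ (S s).ζ ^ 2 := (hA s).θ.2
    exact Real.sqrt_le_iff.2 ⟨(hBθ _ _ (q2 s)).le, h1⟩
  have q6 : ∀ s, Real.sqrt (S s).θ ≤ (S s).ζ / 1000 ∧ Real.sqrt (S s).θ ≤ ν (S s).ρ / 2 ∧
      Real.sqrt (S s).θ ≤ ν (S s).ρ ^ 2 / (8000 * (M + 1) * (s1 (S s).ρ + 1)) ∧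
      Real.sqrt (S s).θ ≤ (S s).ζ / (1000 * (M + 1) * (s1 (S s).ρ + 1)) ∧
      Real.sqrt (S s).θ ≤ e / (1600 * (M + 1) * (s1 (S s).ρ + 1)) := by
    intro s
    have := q5 s
    simp only [Bθ, le_min_iff] at this
    exact ⟨this.1.1, this.1.2, this.2.1, this.2.2.1, this.2.2.2⟩
  have hcross : ∀ (s : Fin J) (q Z : ℝ), 0 ≤ Z → 0 < q →
      Real.sqrt (S s).θ ≤ Z / (q * (M + 1) * (s1 (S s).ρ + 1)) →
      s1 (S s).ρ * Real.sqrt (S s).θ ≤ Z / q ∧ M * Real.sqrt (S s).θ ≤ Z / q ∧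
        M * (s1 (S s).ρ * Real.sqrt (S s).θ) ≤ Z / q := by
    intro s q Z hZ hq h
    have h1 := hs1R s
    have h2 := Real.sqrt_nonneg (S s).θ
    rw [le_div_iff₀ (by positivity)] at h
    have h3 : 0 ≤ q * (M * Real.sqrt (S s).θ) := by positivity
    have h4 : 0 ≤ q * (s1 (S s).ρ * Real.sqrt (S s).θ) := by positivity
    have h5 : 0 ≤ q * (M * (s1 (S s).ρ * Real.sqrt (S s).θ)) := by positivity
    have h6 : 0 ≤ q * Real.sqrt (S s).θ := by positivity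
    have h7 : Real.sqrt (S s).θ * (q * (M + 1) * (s1 (S s).ρ + 1)) =
        q * (M * (s1 (S s).ρ * Real.sqrt (S s).θ)) + q * (M * Real.sqrt (S s).θ) +
        q * (s1 (S s).ρ * Real.sqrt (S s).θ) + q * Real.sqrt (S s).θ := by ring
    rw [h7] at h
    refine ⟨?_, ?_, ?_⟩
    · rw [le_div_iff₀ hq]
      linarith
    · rw [le_div_iff₀ hq]
      linarith
    · rw [le_div_iff₀ hq]
      linarith
  have q7 := fun s => hcross s 8000 (ν (S s).ρ ^ 2) (by positivity) (by norm_num) (q6 s).2.2.1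
  have q8 := fun s => hcross s 1000 (S s).ζ (q2 s).le (by norm_num) (q6 s).2.2.2.1
  have q9 := fun s => hcross s 1600 e he.le (by norm_num) (q6 s).2.2.2.2
  have q10 : ∀ s, w ≤ ν (S s).ρ ^ 2 / (8000 * (M + 1)) ∧
      w ≤ (S s).ζ / (1001 * (4 + 3 * sm)) ∧ w ≤ e / (1600 * (4 + 3 * sm)) := by
    intro s
    have := (hds s).1.le
    simp only [δ, le_min_iff] at this
    exact this
  have q11 : ∀ s, M * w ≤ ν (S s).ρ ^ 2 / 8000 ∧ w ≤ ν (S s).ρ ^ 2 / 8000 := by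
    intro s
    have h1 := (q10 s).1
    rw [le_div_iff₀ (by positivity)] at h1
    have h2 : 0 ≤ M * w := by positivity
    constructor
    · rw [le_div_iff₀ (by norm_num)]
      linarith
    · rw [le_div_iff₀ (by norm_num)]
      linarith
  have q12 : ∀ s, (4 + 3 * sm) * w ≤ (S s).ζ / 1001 := by
    intro s
    have h1 := (q10 s).2.1
    rw [le_div_iff₀ (by positivity)] at h1
    rw [le_div_iff₀ (by norm_num)]
    linarith
  have q13 : (4 + 3 * sm) * w ≤ e / 1600 := by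
    have h1 := hwe.le
    rw [le_div_iff₀ (by positivity)] at h1
    rw [le_div_iff₀ (by norm_num)]
    linarith
  have q14 : w ≤ (4 + 3 * sm) * w := by nlinarith
  have q15 : ∀ s, ν (S s).ρ ^ 2 ≤ ν (S s).ρ := fun s => by
    nlinarith [hν0 (S s).ρ, hν1 (S s).ρ]
  have hTT0 : 0 ≤ 4 * (a * (d : ℝ) ^ 2) * ((d + 2 : ℕ) : ℝ) ^ (γ - 1) +
      sm * y * ((d + 2 : ℕ) : ℝ) ^ γ := by
    have h1 : (0 : ℝ) ≤ ((d + 2 : ℕ) : ℝ) := Nat.cast_nonneg _
    have h2 := Real.rpow_nonneg h1 (γ - 1)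
    have h3 := Real.rpow_nonneg h1 γ
    positivity
  have hnum : Num.{u} C g a y γ ν0 M S (fun s => ν (S s).ρ) (fun s => s1 (S s).ρ) d :=
    { hd0 := by omega
      hC1 := hC
      hg0 := hg
      hg1 := hg1
      ha0 := ha0
      hy0 := hy0
      hν0 := hν00
      hρ := q1
      hζ0 := q2
      hθ0 := q3
      hν := fun s => ⟨hν0s s, hν1 _⟩
      hζρ := fun s => (q4 s).2.1
      hdρ := fun s => (Nat.le_ceil _).trans (by exact_mod_cast (hds s).2.2.1)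
      hπ := fun s => (hA s).π.2
      hκ := fun s => (hA s).κ.2
      hζ := fun s => by
        have h1 := (q4 s).1
        rw [le_div_iff₀ (by norm_num)] at h1
        rw [le_div_iff₀ (by norm_num)]
        linarith
      hθs := fun s => by
        have h1 := (q7 s).1
        have h2 : 0 ≤ ν (S s).ρ ^ 2 := by positivity
        linarith
      hMθ := fun s => by
        have h1 := (q7 s).2.1
        have h2 := (q11 s).1
        have h3 := mul_le_mul_of_nonneg_left p1 hM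
        rw [mul_add]
        linarith
      hfar := fun s => by
        rw [p3]
        refine mul_le_mul_of_nonneg_right ?_ hdR.le
        have h1 := (q11 s).2
        have h2 := (q4 s).2.2.2.2
        have h3 : 0 ≤ (d : ℝ) ^ (-(c' / 2)) := Real.rpow_nonneg hdR.le _
        have h4 : (S s).ζ * (d : ℝ) ^ (-(c' / 2)) ≤ 1 * (d : ℝ) ^ (-(c' / 2)) :=
          mul_le_mul_of_nonneg_right h2 h3
        have h5 : 0 ≤ ν (S s).ρ ^ 2 := by positivity
        linarith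
      hθν := fun s => by
        have h1 := (q6 s).2.1
        have h2 := (q11 s).2
        have h3 := q15 s
        have h4 := hν0 (S s).ρ
        linarith
      hθζ := fun s => by
        have h1 := (q6 s).1
        have h2 := Real.sqrt_nonneg (S s).θ
        have h3 := Real.sq_sqrt (q3 s).le
        have h4 := q2 s
        rw [← h3]
        exact pow_le_pow_left₀ h2 (by linarith) 2
      hblk := fun s => hB _ (q1 s).1 d (hds s).2.1
      hlid := hk0 (d + 2) (by omega)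
      hdC := by
        have h1 : C ≤ d := (Nat.le_ceil C).trans (by exact_mod_cast (by omega))
        have h2 : (d : ℝ) ≤ ((d + 2 : ℕ) : ℝ) := by
          push_cast
          linarith
        calc C * (d : ℝ) ^ 2 ≤ d * (d : ℝ) ^ 2 :=
              mul_le_mul_of_nonneg_right h1 (by positivity)
          _ = (d : ℝ) ^ 3 := by ring
          _ ≤ _ := pow_le_pow_left₀ hdR.le h2 3
      hds := fun s => by
        have h1 : (s1 (S s).ρ : ℝ) ≤ d := by exact_mod_cast (hds s).2.2.2.2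
        have h2 : (d : ℝ) ≤ ((d + 2 : ℕ) : ℝ) := by
          push_cast
          linarith
        calc (s1 (S s).ρ : ℝ) * d ≤ d * d := mul_le_mul_of_nonneg_right h1 hdR.le
          _ = (d : ℝ) ^ 2 * 1 := by ring
          _ ≤ (d : ℝ) ^ 2 * d := mul_le_mul_of_nonneg_left (by linarith) (by positivity)
          _ = (d : ℝ) ^ 3 := by ring
          _ ≤ _ := pow_le_pow_left₀ hdR.le h2 3 }
  obtain ⟨f, hf⟩ := ncol hP hnum t c Qn P2n hS
  refine ⟨_, own_of hP hR hf ?_ (by linarith) hTT0⟩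
  have hTζ : ∀ s, 4 * (a * (d : ℝ) ^ 2) * ((d + 2 : ℕ) : ℝ) ^ (γ - 1) +
      sm * y * ((d + 2 : ℕ) : ℝ) ^ γ ≤ (S s).ζ / 1000 * d := by
    intro s
    refine p5.trans (mul_le_mul_of_nonneg_right ?_ hdR.le)
    have h1 := q12 s
    have h2 := q2 s
    linarith
  exact
    { hd0 := by omega
      hy0 := hy0
      he0 := by linarith
      hζ0 := q2
      hθ0 := q3
      hbig := fun s => (q6 s).1
      haζ := fun s => by
        have h1 := q12 s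
        have h2 := q2 s
        linarith
      hay := p2
      hζτ := fun s => by
        have := (q4 s).2.2.1
        linarith
      hMζ := fun s => (q8 s).2.2
      hMe := fun s => by
        have := (q9 s).2.2
        linarith
      hζe := fun s => by
        have := (q4 s).2.2.2.1
        linarith
      hTζ := hTζ
      hTe := by
        refine p5.trans (mul_le_mul_of_nonneg_right ?_ hdR.le)
        have := q13
        linarith
      hsθ := fun s => by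
        have h1 : (s1 (S s).ρ : ℝ) / (S s).θ ≤ d :=
          (Nat.le_ceil _).trans (by exact_mod_cast (hds s).2.2.2.1)
        rw [div_le_iff₀ (q3 s)] at h1
        linarith }

/-- **OWNX** -/
theorem stmt_OWNX : Stmt_OWNX.{u} := by
  intro πk C g z τ e M _ _ hC hg hg1 _ _ hτ hτe
  obtain ⟨T, hT, h⟩ := stmt_OWNC.{u} C g τ e M hC hg hg1 hτ hτe
  refine ⟨T, hT, fun J S c' hA hc' => ?_⟩
  obtain ⟨d0, h⟩ := h J S c' hA hc'
  refine ⟨d0, ?_⟩
  intro V _ N G d X A t c Qn P2n x θk θ' η hd hP _ hR hS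
  exact h G d X t c Qn P2n z θk θ' η hd hP hR.toOwX (fun n hn' =>
    ⟨(hS.Pc n (Or.inl hn')).2, fun i => (hS.Qc n (Or.inl hn') i).2⟩)

end Pool.Agent.Work.MP_db9399_ownx
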